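import Pool.Agent.V7H24.QP.Energy
import Pool.Agent.R416.CV.Asym

/-!
Choices near a function with piecewise first order expansions: asymptotic form.
-/

set_option autoImplicit false

namespace Pool.Agent.V7H24.QP

open Finset Classical Filter Topology
open Pool.Agent.H170R2.PC

/-- On each of the pieces `[j ρ, (j + 1) ρ)` of `[P, 2 P]` the function `f` has first order expansions with the slopes
`g x` and with errors at most `K |y - x| (|y - x| / P) ^ θ`. Nothing is assumed about points of different pieces.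
If `θ > 0`, then `g` is the derivative of `f` inside the pieces; conversely every function whose derivative is
on each piece `θ`-Hölder with constant `K / P ^ θ` is of this form with `g = f'`. If `θ = 0`, every `f` with Lipschitz
constant `K` on each piece is of this form with `g = 0`. -/
def Expands (P K θ ρ : ℝ) (f g : ℝ → ℝ) : Prop :=
  ∀ x ∈ Set.Icc P (2 * P), ∀ y ∈ Set.Icc P (2 * P), ⌊x / ρ⌋ = ⌊y / ρ⌋ →
    |f y - f x - (y - x) * g x| ≤ K * |y - x| * (|y - x| / P) ^ θ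

/-- The choice `a` follows a piecewise smooth function: there are `f` and `g` with first order expansions of exponent `θ`
and constant `N ^ χ` on the pieces of length `N ^ ρ` of `[N ^ α, 2 N ^ α]`, whose tangents `f x + (y - x) g x` have at
`y = 0` values of size at most `N ^ (α + κ)`, such that for at least `N ^ (α - δ)` of the primes `N ^ α ≤ p < 2 N ^ α` the
class `a p` contains an integer at distance at most `N ^ δ` from `f p`. -/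
def Follows (α : ℝ) (N : ℕ) (θ χ κ ρ δ : ℝ) (a : (p : ℕ) → ZMod p) : Prop :=
  ∃ f g : ℝ → ℝ, Expands ((N : ℝ) ^ α) ((N : ℝ) ^ χ) θ ((N : ℝ) ^ ρ) f g ∧
    (∀ x ∈ Set.Icc ((N : ℝ) ^ α) (2 * (N : ℝ) ^ α), |f x - x * g x| ≤ (N : ℝ) ^ (α + κ)) ∧
    (N : ℝ) ^ (α - δ) ≤ (Set.ncard {p : ℕ | InRange α N p ∧
      ∃ b : ℤ, ((b : ℤ) : ZMod p) = a p ∧ |(b : ℝ) - f p| ≤ (N : ℝ) ^ δ} : ℝ)

/-- the loss in the exponent -/
noncomputable def loss (α θ χ κ : ℝ) : ℝ :=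
  max 0 (max ((χ + (1 + θ) * (1 - α) - θ * α) / (2 + θ)) ((χ + (1 - θ) * (1 - α) + θ * κ) / 2))

lemma ev_const' {s : ℝ} (hs : 0 < s) (C : ℝ) : ∀ᶠ N : ℕ in atTop, C ≤ (N : ℝ) ^ s :=
  ((tendsto_rpow_atTop hs).comp tendsto_natCast_atTop_atTop).eventually_ge_atTop C

lemma ev_log' {ε C : ℝ} (hε : 0 < ε) (hC : 0 < C) : ∀ᶠ N : ℕ in atTop, C * (1 + Real.log N) ^ 2 ≤ (N : ℝ) ^ ε := by
  have h1 := tendsto_natCast_atTop_atTop.eventually
    ((isLittleO_log_rpow_atTop (half_pos hε)).bound (show 0 < 1 / (2 * (C + 1)) by positivity))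
  filter_upwards [h1, ev_const' (half_pos hε) (2 * (C + 1)), eventually_ge_atTop 1] with N h2 h3 h4
  have h5 : (1 : ℝ) ≤ N := by exact_mod_cast h4
  have hlog := Real.log_nonneg h5
  rw [Real.norm_of_nonneg hlog, Real.norm_of_nonneg (by positivity)] at h2
  have h6 : (C + 1) * Real.log N ≤ (C + 1) * (1 / (2 * (C + 1)) * (N : ℝ) ^ (ε / 2)) := by gcongr
  have h7 : (C + 1) * (1 / (2 * (C + 1)) * (N : ℝ) ^ (ε / 2)) = (N : ℝ) ^ (ε / 2) / 2 := by field_simp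
  have h8 : (C + 1) * (1 + Real.log N) ≤ (N : ℝ) ^ (ε / 2) := by linarith
  calc C * (1 + Real.log N) ^ 2 ≤ (C + 1) ^ 2 * (1 + Real.log N) ^ 2 := by
        gcongr
        nlinarith
    _ = ((C + 1) * (1 + Real.log N)) ^ 2 := by ring
    _ ≤ ((N : ℝ) ^ (ε / 2)) ^ 2 := by gcongr
    _ = (N : ℝ) ^ ε := by
        rw [← Real.rpow_natCast, ← Real.rpow_mul (by positivity)]
        congr 1
        push_cast
        ring

/-- the parameters of a function with piecewise first order expansions -/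
lemma exists_par {P M R K X B θ ρ : ℝ} {f g : ℝ → ℝ} (h : Expands P X θ ρ f g) (hθ : 0 ≤ θ) (hθ1 : θ ≤ 1)
    (hR : 1 ≤ R) (hRM : 128 * R ≤ M) (hMP : M ≤ P) (hK : 1 ≤ K) (hKM : 1024 * K ≤ M) (hX : 0 < X) (hXK : X ≤ K)
    (hB : 1 ≤ B) (hBM : B ≤ M) (m : ℕ) (hm : 1 ≤ m) (hρ : B = ρ / m)
    (hf : ∀ x ∈ Set.Icc P (2 * P), |f x - x * g x| ≤ K * P) :
    ∃ π : Par, ∃ c : ℤ → ℤ, π.P = P ∧ π.M = M ∧ π.R = R ∧ π.B = B ∧ π.L = 7 * K ∧ π.ρ = ρ ∧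
      π.W = 10976 * (X * B * ((B / P) ^ θ + (K * R / M) ^ θ)) ∧ π.F = fun x => f x - c ⌊x / ρ⌋ * x := by
  have hM : 1024 ≤ M := by linarith
  have hP : 1024 ≤ P := by linarith
  have hP0 : 0 < P := by linarith
  have hm0 : (1 : ℝ) ≤ m := by exact_mod_cast hm
  have hBρ : B ≤ ρ := by
    have e : ρ = B * m := by rw [hρ]; field_simp
    rw [e]
    nlinarith
  have hle1 : ∀ x y : ℝ, P ≤ x → x ≤ 2 * P → P ≤ y → y ≤ 2 * P → (|y - x| / P) ^ θ ≤ 1 := by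
    intro x y hx hx2 hy hy2
    apply Real.rpow_le_one (by positivity) _ hθ
    rw [div_le_one hP0, abs_le]
    constructor <;> linarith
  have hg : ∀ x y : ℝ, P ≤ x → x ≤ 2 * P → P ≤ y → y ≤ 2 * P → ⌊x / ρ⌋ = ⌊y / ρ⌋ →
      |g x - g y| ≤ 2 * X * (|x - y| / P) ^ θ := by
    intro x y hx hx2 hy hy2 hxy
    rcases eq_or_ne x y with rfl | hne
    · rw [sub_self, sub_self, abs_zero]
      positivity
    have h1 := h x ⟨hx, hx2⟩ y ⟨hy, hy2⟩ hxy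
    have h2 := h y ⟨hy, hy2⟩ x ⟨hx, hx2⟩ hxy.symm
    rw [abs_sub_comm y x] at h1
    have h3 : |x - y| * |g x - g y| ≤ |x - y| * (2 * X * (|x - y| / P) ^ θ) := by
      rw [← abs_mul]
      have e : (x - y) * (g x - g y) = (f y - f x - (y - x) * g x) + (f x - f y - (x - y) * g y) := by ring
      rw [e]
      refine (abs_add_le _ _).trans ?_
      linarith
    exact le_of_mul_le_mul_left h3 (abs_pos.2 (sub_ne_zero.2 hne))
  -- the integral slopes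
  have hc : ∀ j : ℤ, ∃ c : ℤ, ∀ x : ℝ, P ≤ x → x ≤ 2 * P → ⌊x / ρ⌋ = j → |g x - c| ≤ 3 * K := by
    intro j
    by_cases hj : ∃ x₀ : ℝ, P ≤ x₀ ∧ x₀ ≤ 2 * P ∧ ⌊x₀ / ρ⌋ = j
    · obtain ⟨x₀, hx₀, hx₀2, hj₀⟩ := hj
      refine ⟨⌊g x₀⌋, fun x hx hx2 hxj => ?_⟩
      have h1 := hg x x₀ hx hx2 hx₀ hx₀2 (hxj.trans hj₀.symm)
      have h2 : 2 * X * (|x - x₀| / P) ^ θ ≤ 2 * X * 1 := by
        gcongr
        exact hle1 x₀ x hx₀ hx₀2 hx hx2
      have h3 := abs_le.1 (h1.trans h2)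
      have h4 := Int.floor_le (g x₀)
      have h5 := (Int.lt_floor_add_one (g x₀)).le
      rw [abs_le]
      constructor <;> linarith [h3.1, h3.2]
    · exact ⟨0, fun x hx hx2 hxj => absurd ⟨x, hx, hx2, hxj⟩ hj⟩
  choose c hc' using hc
  have hc : ∀ x : ℝ, P ≤ x → x ≤ 2 * P → |g x - c ⌊x / ρ⌋| ≤ 3 * K := fun x hx hx2 => hc' _ x hx hx2 rfl
  refine ⟨⟨P, M, R, 7 * K, B, 10976 * (X * B * ((B / P) ^ θ + (K * R / M) ^ θ)), ρ, fun s => 2 * X * (s / P) ^ θ,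
    fun x => f x - c ⌊x / ρ⌋ * x, fun x => g x - c ⌊x / ρ⌋, hR, hRM, hMP, by linarith, by linarith, hB, hBM, hBρ,
    ?_, ?_, ?_, ?_, ?_, ?_, ?_, ?_⟩, c, rfl, rfl, rfl, rfl, rfl, rfl, rfl, rfl⟩
  · intro x y hxy
    have e : ∀ z : ℝ, z / ρ = z / B / m := by
      intro z
      rw [hρ]
      field_simp
    rw [e x, e y, Int.floor_div_natCast, Int.floor_div_natCast, hxy]
  · rw [zero_div]
    have : (0 : ℝ) ≤ 0 ^ θ := Real.rpow_nonneg le_rfl θ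
    positivity
  · intro s t hs hst
    gcongr
  · have e : (18 * B + 784 * (P * (7 * K) * R / M)) / P = 18 * (B / P) + 5488 * (K * R / M) := by
      field_simp
      ring
    rw [e]
    have h1 : (18 * (B / P) + 5488 * (K * R / M)) ^ θ ≤ (18 * (B / P)) ^ θ + (5488 * (K * R / M)) ^ θ :=
      Real.rpow_add_le_add_rpow (by positivity) (by positivity) hθ hθ1
    have h2 : (18 * (B / P)) ^ θ ≤ 18 * (B / P) ^ θ := by
      rw [Real.mul_rpow (by norm_num) (by positivity)]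
      gcongr
      calc (18 : ℝ) ^ θ ≤ 18 ^ (1 : ℝ) := Real.rpow_le_rpow_of_exponent_le (by norm_num) hθ1
        _ = 18 := Real.rpow_one _
    have h3 : (5488 * (K * R / M)) ^ θ ≤ 5488 * (K * R / M) ^ θ := by
      rw [Real.mul_rpow (by norm_num) (by positivity)]
      gcongr
      calc (5488 : ℝ) ^ θ ≤ 5488 ^ (1 : ℝ) := Real.rpow_le_rpow_of_exponent_le (by norm_num) hθ1
        _ = 5488 := Real.rpow_one _
    have h4 : 0 ≤ (B / P) ^ θ := by positivity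
    calc B * (2 * X * (18 * (B / P) + 5488 * (K * R / M)) ^ θ)
        ≤ B * (2 * X * (5488 * (B / P) ^ θ + 5488 * (K * R / M) ^ θ)) := by
          gcongr
          linarith
      _ = _ := by ring
  · intro x hx hx2
    have h1 := hf x ⟨hx, hx2⟩
    have h2 := hc x hx hx2
    have e : f x - c ⌊x / ρ⌋ * x = (f x - x * g x) + x * (g x - c ⌊x / ρ⌋) := by ring
    rw [e]
    refine (abs_add_le _ _).trans ?_
    have h3 : |x * (g x - c ⌊x / ρ⌋)| ≤ 2 * P * (3 * K) := by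
      rw [abs_mul, abs_of_pos (show 0 < x by linarith)]
      gcongr
    linarith
  · intro x y hx hx2 hy hy2 hxy
    have h1 := h y ⟨hy, hy2⟩ x ⟨hx, hx2⟩ hxy.symm
    have h2 : |f x - f y - (x - y) * g y| ≤ X * |x - y| := by
      refine h1.trans ?_
      have h3 : X * |x - y| * (|x - y| / P) ^ θ ≤ X * |x - y| * 1 := by
        gcongr
        exact hle1 y x hy hy2 hx hx2
      linarith
    have h4 := hc y hy hy2
    rw [hxy]
    have e : (f x - c ⌊y / ρ⌋ * x) - (f y - c ⌊y / ρ⌋ * y) = (f x - f y - (x - y) * g y) +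
        (x - y) * (g y - c ⌊y / ρ⌋) := by ring
    rw [e]
    refine (abs_add_le _ _).trans ?_
    rw [abs_mul]
    have h5 : |x - y| * |g y - c ⌊y / ρ⌋| ≤ |x - y| * (3 * K) := by gcongr
    have h6 : X * |x - y| ≤ K * |x - y| := by gcongr
    have h7 : 0 ≤ K * |x - y| := by positivity
    linarith
  · intro x y hx hx2 hy hy2 hxy
    rw [hxy]
    have h1 := h x ⟨hx, hx2⟩ y ⟨hy, hy2⟩ hxy
    have e : f y - c ⌊y / ρ⌋ * y - (f x - c ⌊y / ρ⌋ * x) - (y - x) * (g x - c ⌊y / ρ⌋) =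
        f y - f x - (y - x) * g x := by ring
    rw [e]
    refine h1.trans ?_
    have h2 : 0 ≤ X * |y - x| * (|y - x| / P) ^ θ := by positivity
    linarith
  · intro x y hx hx2 hy hy2 hxy
    rw [hxy]
    have e : g x - (c ⌊y / ρ⌋ : ℝ) - (g y - c ⌊y / ρ⌋) = g x - g y := by ring
    rw [e]
    exact hg x y hx hx2 hy hy2 hxy

theorem main {α θ χ κ ρ δ ε : ℝ} (h1 : 1 / 2 ≤ α) (h2 : α < 1) (hθ : 0 ≤ θ) (hθ1 : θ ≤ 1) (hκ : 0 ≤ κ) (hχ : χ ≤ κ)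
    (hδ : 0 ≤ δ) (hκδ : κ + δ < 1 - α) (hρ : 0 < ρ) (hε : 0 < ε) :
    ∃ N₀ : ℕ, ∀ N : ℕ, N₀ ≤ N → ∀ a : (p : ℕ) → ZMod p, Follows α N θ χ κ ρ δ a →
      (N : ℝ) ^ (1 - max (loss α θ χ (κ + δ)) (1 - α - ρ) - max 0 (2 * α - 1 + κ + δ - ρ) - 3 * δ - ε) ≤
        (coveredCount α N a : ℝ) := by
  obtain ⟨N₀, hN₀⟩ := eventually_atTop.1 (((((ev_const' (show 0 < 1 - α - δ by linarith) 128).and
    (ev_const' (show 0 < 1 - α - κ by linarith) 1024)).and (ev_const' hρ 2)).and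
    (ev_log' hε (show (0 : ℝ) < 64 * 4000000000000 by norm_num))).and (eventually_ge_atTop 1))
  refine ⟨N₀, fun N hN a hnear => ?_⟩
  obtain ⟨⟨⟨⟨e1, e1'⟩, e1''⟩, e2⟩, e3⟩ := hN₀ N hN
  have hN1 : (1 : ℝ) ≤ N := by exact_mod_cast e3
  have hN0 : (0 : ℝ) < N := by linarith
  obtain ⟨f, g, hexp, hf, hcard⟩ := hnear
  obtain ⟨z, hz⟩ : ∃ z, z = max 0 (2 * α - 1 + κ + δ - ρ) := ⟨_, rfl⟩
  rw [← hz]
  have hz0 : 0 ≤ z := by rw [hz]; exact le_max_left _ _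
  have hz1 : 2 * α - 1 + κ + δ - ρ ≤ z := by rw [hz]; exact le_max_right _ _
  obtain ⟨ℓ, hℓ⟩ : ∃ ℓ, ℓ = max (loss α θ χ (κ + δ)) (1 - α - ρ) := ⟨_, rfl⟩
  rw [← hℓ]
  have hℓlo : loss α θ χ (κ + δ) ≤ ℓ := by rw [hℓ]; exact le_max_left _ _
  have hℓρ : 1 - α - ρ ≤ ℓ := by rw [hℓ]; exact le_max_right _ _
  have hℓ0 : 0 ≤ ℓ := (le_max_left _ _).trans hℓlo
  have hℓ1 : (χ + (1 - θ) * (1 - α) + θ * (κ + δ)) / 2 ≤ ℓ :=
    ((le_max_right _ _).trans (le_max_right _ _)).trans hℓlo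
  have hℓ2 : (χ + (1 + θ) * (1 - α) - θ * α) / (2 + θ) ≤ ℓ :=
    ((le_max_left _ _).trans (le_max_right _ _)).trans hℓlo
  have hℓ2' : χ + (1 + θ) * (1 - α) - θ * α ≤ (2 + θ) * ℓ := by
    rw [div_le_iff₀ (by linarith)] at hℓ2
    linarith
  have hℓ3 : ℓ ≤ 1 - α := by
    rw [hℓ]
    unfold loss
    refine max_le (max_le (by linarith) (max_le ?_ ?_)) (by linarith)
    · rw [div_le_iff₀ (by linarith)]
      nlinarith
    · rw [div_le_iff₀ (by norm_num)]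
      nlinarith
  obtain ⟨β, hβ⟩ : ∃ β, β = 1 - α - ℓ := ⟨_, rfl⟩
  have hβ0 : 0 ≤ β := by rw [hβ]; linarith
  have hβM : β ≤ 1 - α := by rw [hβ]; linarith
  have c1 : χ + β + (β - α) * θ ≤ ℓ := by rw [hβ]; nlinarith
  have c2 : χ + β + (κ + δ - (1 - α)) * θ ≤ ℓ := by rw [hβ]; nlinarith
  have hPM0 : (N : ℝ) ^ α * (N : ℝ) ^ (1 - α) = N := by
    rw [← Real.rpow_add hN0]
    have : α + (1 - α) = 1 := by ring
    rw [this, Real.rpow_one]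
  have hK1 : 1 ≤ (N : ℝ) ^ κ := Real.one_le_rpow hN1 hκ
  have hR1 : 1 ≤ (N : ℝ) ^ δ := Real.one_le_rpow hN1 hδ
  have hKM : 1024 * (N : ℝ) ^ κ ≤ (N : ℝ) ^ (1 - α) := by
    calc 1024 * (N : ℝ) ^ κ ≤ (N : ℝ) ^ (1 - α - κ) * (N : ℝ) ^ κ := by gcongr
      _ = (N : ℝ) ^ (1 - α) := by rw [← Real.rpow_add hN0]; congr 1; ring
  have hM1 : 1024 ≤ (N : ℝ) ^ (1 - α) := by nlinarith
  -- the length of the blocks
  obtain ⟨T, hT⟩ : ∃ T : ℝ, T = max 2 ((N : ℝ) ^ β) := ⟨_, rfl⟩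
  have hT2 : 2 ≤ T := by rw [hT]; exact le_max_left _ _
  have hTβ : (N : ℝ) ^ β ≤ T := by rw [hT]; exact le_max_right _ _
  have hTM : T ≤ (N : ℝ) ^ (1 - α) := by
    rw [hT]
    exact max_le (by linarith) (Real.rpow_le_rpow_of_exponent_le hN1 hβM)
  have hTβ2 : T ≤ 2 * (N : ℝ) ^ β := by
    have : 1 ≤ (N : ℝ) ^ β := Real.one_le_rpow hN1 hβ0
    rw [hT]
    exact max_le (by linarith) (by linarith)
  have hTρ : T ≤ (N : ℝ) ^ ρ := by
    rw [hT]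
    exact max_le e1'' (Real.rpow_le_rpow_of_exponent_le hN1 (by linarith))
  obtain ⟨m, hm⟩ : ∃ m : ℕ, m = ⌈(N : ℝ) ^ ρ / T⌉₊ := ⟨_, rfl⟩
  have hq1 : 1 ≤ (N : ℝ) ^ ρ / T := by rwa [le_div_iff₀ (by linarith), one_mul]
  have hm2 : (N : ℝ) ^ ρ / T ≤ m := by rw [hm]; exact Nat.le_ceil _
  have hm3 : (m : ℝ) ≤ 2 * ((N : ℝ) ^ ρ / T) := by
    have := (Nat.ceil_lt_add_one (show 0 ≤ (N : ℝ) ^ ρ / T by positivity)).le
    rw [← hm] at this
    linarith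
  have hm1' : (1 : ℝ) ≤ m := hq1.trans hm2
  have hm1 : 1 ≤ m := by exact_mod_cast hm1'
  obtain ⟨B, hB⟩ : ∃ B : ℝ, B = (N : ℝ) ^ ρ / m := ⟨_, rfl⟩
  have hBT : B ≤ T := by
    rw [hB, div_le_iff₀ (by linarith)]
    rw [div_le_iff₀ (by linarith)] at hm2
    linarith
  have hBT2 : T / 2 ≤ B := by
    rw [hB, le_div_iff₀ (by linarith)]
    have : (m : ℝ) * T ≤ 2 * (N : ℝ) ^ ρ := by
      have h3 : 2 * ((N : ℝ) ^ ρ / T) * T = 2 * (N : ℝ) ^ ρ := by field_simp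
      rw [← h3]
      gcongr
    linarith
  have hB1 : 1 ≤ B := by linarith
  have hBM : B ≤ (N : ℝ) ^ (1 - α) := hBT.trans hTM
  -- the parameters
  obtain ⟨π, c, hπP, hπM, hπR, hπB, hπL, hπρ, hπW, hπF⟩ := exists_par (M := (N : ℝ) ^ (1 - α)) (R := (N : ℝ) ^ δ)
    (K := (N : ℝ) ^ κ) (B := B) hexp hθ hθ1 hR1
    (by
      calc 128 * (N : ℝ) ^ δ ≤ (N : ℝ) ^ (1 - α - δ) * (N : ℝ) ^ δ := by gcongr
        _ = (N : ℝ) ^ (1 - α) := by rw [← Real.rpow_add hN0]; congr 1; ring)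
    (Real.rpow_le_rpow_of_exponent_le hN1 (by linarith)) hK1 hKM (by positivity)
    (Real.rpow_le_rpow_of_exponent_le hN1 hχ) hB1 hBM m hm1 hB
    (by
      intro x hx
      refine (hf x hx).trans (le_of_eq ?_)
      rw [← Real.rpow_add hN0]
      congr 1
      ring)
  have hPM : (N : ℝ) = π.P * π.M := by rw [hπP, hπM, hPM0]
  -- the primes and the representatives
  obtain ⟨Q, hQd⟩ : ∃ Q, Q = (Pool.Agent.H170R2.PC.PD α N).filter (fun p : ℕ => ∃ b : ℤ, ((b : ℤ) : ZMod p) = a p ∧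
    |(b : ℝ) - f p| ≤ (N : ℝ) ^ δ) := ⟨_, rfl⟩
  have hQc : (N : ℝ) ^ (α - δ) ≤ (Q.card : ℝ) := by
    refine hcard.trans (le_of_eq ?_)
    rw [← Set.ncard_coe_finset]
    congr 2
    ext p
    rw [hQd, mem_coe, mem_filter, Pool.Agent.H170R2.PC.mem_PD]
    rfl
  have hchoice : ∀ p : ℕ, ∃ b : ℤ, p ∈ Q → ((b : ℤ) : ZMod p) = a p ∧ |(b : ℝ) - f p| ≤ (N : ℝ) ^ δ := by
    intro p
    by_cases hp : p ∈ Q
    · rw [hQd, mem_filter] at hp
      obtain ⟨b, hb⟩ := hp.2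
      exact ⟨b, fun _ => hb⟩
    · exact ⟨0, fun h => absurd h hp⟩
  choose b₀ hb₀ using hchoice
  obtain ⟨b, hbd⟩ : ∃ b : ℕ → ℤ, b = fun p => b₀ p - c ⌊(p : ℝ) / (N : ℝ) ^ ρ⌋ * p := ⟨_, rfl⟩
  have hba : ∀ p ∈ Q, ((b p : ℤ) : ZMod p) = a p := by
    intro p hp
    rw [hbd, ← (hb₀ p hp).1]
    push_cast
    simp
  have hbb : ∀ p ∈ Q, |(b p : ℝ) - π.F p| ≤ π.R := by
    intro p hp
    rw [hπF, hπR]
    have h3 := (hb₀ p hp).2
    have e : (b p : ℝ) - (f p - c ⌊(p : ℝ) / (N : ℝ) ^ ρ⌋ * p) = (b₀ p : ℝ) - f p := by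
      rw [hbd]
      push_cast
      ring
    simp only
    rw [e]
    exact h3
  have hrange : ∀ p ∈ Q, InRange α N p := by
    intro p hp
    rw [hQd, mem_filter, Pool.Agent.H170R2.PC.mem_PD] at hp
    exact hp.1
  have hQ : ∀ p ∈ Q, π.P ≤ (p : ℝ) ∧ (p : ℝ) < 2 * π.P := by
    intro p hp
    rw [hπP]
    exact (hrange p hp).2
  have hfin := finite_form hPM hQ hbb
  -- the covered points
  have hcov : ((Q.biUnion (Cl N b)).card : ℝ) ≤ (coveredCount α N a : ℝ) := by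
    unfold coveredCount
    rw [← Set.ncard_coe_finset]
    have : ((Q.biUnion (Cl N b) : Finset ℕ) : Set ℕ) ⊆
        {n : ℕ | 1 ≤ n ∧ n ≤ N ∧ ∃ p : ℕ, InRange α N p ∧ (n : ZMod p) = a p} := by
      intro n hn
      rw [mem_coe, mem_biUnion] at hn
      obtain ⟨p, hp, hn⟩ := hn
      rw [Cl, mem_filter, mem_Ioc] at hn
      refine ⟨by omega, hn.1.2, p, hrange p hp, ?_⟩
      rw [hn.2, hba p hp]
    exact_mod_cast Set.ncard_le_ncard this ((Set.finite_Icc 0 N).subset (fun n hn => ⟨Nat.zero_le _, hn.2.1⟩))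
  obtain ⟨S, hS⟩ : ∃ S : ℝ, S = (coveredCount α N a : ℝ) := ⟨_, rfl⟩
  rw [← hS] at hcov ⊢
  have hS0 : 0 ≤ S := by rw [hS]; positivity
  -- the bound for the energy
  obtain ⟨E, hE⟩ : ∃ E : ℝ, E = (N : ℝ) ^ (1 + ℓ + δ) := ⟨_, rfl⟩
  have hE0 : 0 < E := by rw [hE]; positivity
  obtain ⟨Λ, hΛ⟩ : ∃ Λ : ℝ, Λ = (1 + Real.log N) ^ 2 := ⟨_, rfl⟩
  have hlogN := Real.log_nonneg hN1
  have hΛ1 : 1 ≤ Λ := by rw [hΛ]; nlinarith
  have hlogB : (1 + Real.log B) ^ 2 ≤ Λ := by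
    rw [hΛ]
    have h3 : Real.log B ≤ Real.log N := by
      apply Real.log_le_log (by linarith)
      refine hBM.trans ?_
      calc (N : ℝ) ^ (1 - α) ≤ (N : ℝ) ^ (1 : ℝ) := Real.rpow_le_rpow_of_exponent_le hN1 (by linarith)
        _ = N := Real.rpow_one _
    have h4 := Real.log_nonneg hB1
    gcongr
  have hNz : 1 ≤ (N : ℝ) ^ z := Real.one_le_rpow hN1 hz0
  have hZ : π.Z ≤ 5508 * (N : ℝ) ^ z := by
    unfold Par.Z Par.Y
    rw [hπB, hπP, hπL, hπR, hπM, hπρ]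
    have hρ0 : 0 < (N : ℝ) ^ ρ := by positivity
    have h3 : B ≤ (N : ℝ) ^ ρ := hBT.trans hTρ
    have h3' : B ≤ (N : ℝ) ^ z * (N : ℝ) ^ ρ := by nlinarith
    have h4 : (N : ℝ) ^ α * (7 * (N : ℝ) ^ κ) * (N : ℝ) ^ δ / (N : ℝ) ^ (1 - α) ≤ 7 * ((N : ℝ) ^ z * (N : ℝ) ^ ρ) := by
      have e : (N : ℝ) ^ α * (7 * (N : ℝ) ^ κ) * (N : ℝ) ^ δ / (N : ℝ) ^ (1 - α) =
          7 * (N : ℝ) ^ (α + κ + δ - (1 - α)) := by
        rw [Real.rpow_sub hN0 (α + κ + δ) (1 - α), Real.rpow_add hN0 (α + κ) δ, Real.rpow_add hN0 α κ]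
        ring
      rw [e, ← Real.rpow_add hN0]
      have : (N : ℝ) ^ (α + κ + δ - (1 - α)) ≤ (N : ℝ) ^ (z + ρ) := Real.rpow_le_rpow_of_exponent_le hN1 (by linarith)
      linarith
    have h5 : (18 * B + 784 * ((N : ℝ) ^ α * (7 * (N : ℝ) ^ κ) * (N : ℝ) ^ δ / (N : ℝ) ^ (1 - α))) / (N : ℝ) ^ ρ ≤
        5506 * (N : ℝ) ^ z := by
      rw [div_le_iff₀ hρ0]
      linarith
    linarith
  have hb1 : π.M ^ 2 * (π.P / π.B) ≤ 2 * E := by
    rw [hπM, hπP, hπB, hE]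
    have h3 : (N : ℝ) ^ β / 2 ≤ B := by linarith
    calc ((N : ℝ) ^ (1 - α)) ^ 2 * ((N : ℝ) ^ α / B) ≤ ((N : ℝ) ^ (1 - α)) ^ 2 * ((N : ℝ) ^ α / ((N : ℝ) ^ β / 2)) := by
          gcongr
      _ = 2 * (((N : ℝ) ^ (1 - α)) ^ 2 * ((N : ℝ) ^ α / (N : ℝ) ^ β)) := by field_simp
      _ = 2 * (N : ℝ) ^ ((1 - α) + (1 - α) + (α - β)) := by
          rw [sq, ← Real.rpow_sub hN0, ← Real.rpow_add hN0, ← Real.rpow_add hN0]
      _ ≤ 2 * (N : ℝ) ^ (1 + ℓ + δ) := by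
          have : (N : ℝ) ^ ((1 - α) + (1 - α) + (α - β)) ≤ (N : ℝ) ^ (1 + ℓ + δ) := by
            apply Real.rpow_le_rpow_of_exponent_le hN1
            rw [hβ]
            linarith
          linarith
  have hNE : (N : ℝ) * (N : ℝ) ^ δ ≤ E := by
    rw [hE]
    calc (N : ℝ) * (N : ℝ) ^ δ = (N : ℝ) ^ (1 + δ) := by rw [Real.rpow_add hN0, Real.rpow_one]
      _ ≤ _ := Real.rpow_le_rpow_of_exponent_le hN1 (by linarith)
  have hWE : (N : ℝ) * π.W ≤ 65856 * E := by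
    have key : (N : ℝ) ^ χ * B * ((B / (N : ℝ) ^ α) ^ θ + ((N : ℝ) ^ κ * (N : ℝ) ^ δ / (N : ℝ) ^ (1 - α)) ^ θ) ≤
        6 * (N : ℝ) ^ (ℓ + δ) := by
      have hq : (N : ℝ) ^ κ * (N : ℝ) ^ δ / (N : ℝ) ^ (1 - α) = (N : ℝ) ^ (κ + δ - (1 - α)) := by
        rw [← Real.rpow_add hN0, ← Real.rpow_sub hN0]
      rw [hq, ← Real.rpow_mul hN0.le]
      have hB2 : B ≤ 2 * (N : ℝ) ^ β := hBT.trans hTβ2
      have h3 : (B / (N : ℝ) ^ α) ^ θ ≤ 2 * (N : ℝ) ^ ((β - α) * θ) := by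
        calc (B / (N : ℝ) ^ α) ^ θ ≤ (2 * (N : ℝ) ^ β / (N : ℝ) ^ α) ^ θ := by gcongr
          _ = (2 * (N : ℝ) ^ (β - α)) ^ θ := by rw [Real.rpow_sub hN0]; congr 1; ring
          _ = 2 ^ θ * (N : ℝ) ^ ((β - α) * θ) := by
              rw [Real.mul_rpow (by norm_num) (by positivity), ← Real.rpow_mul hN0.le]
          _ ≤ 2 * (N : ℝ) ^ ((β - α) * θ) := by
              gcongr
              calc (2 : ℝ) ^ θ ≤ 2 ^ (1 : ℝ) := Real.rpow_le_rpow_of_exponent_le (by norm_num) hθ1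
                _ = 2 := Real.rpow_one _
      have h4 : (N : ℝ) ^ χ * (2 * (N : ℝ) ^ β) * (2 * (N : ℝ) ^ ((β - α) * θ)) ≤ 4 * (N : ℝ) ^ (ℓ + δ) := by
        calc (N : ℝ) ^ χ * (2 * (N : ℝ) ^ β) * (2 * (N : ℝ) ^ ((β - α) * θ))
            = 4 * (N : ℝ) ^ (χ + β + (β - α) * θ) := by
              rw [Real.rpow_add hN0, Real.rpow_add hN0]; ring
          _ ≤ _ := by
              have : (N : ℝ) ^ (χ + β + (β - α) * θ) ≤ (N : ℝ) ^ (ℓ + δ) :=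
                Real.rpow_le_rpow_of_exponent_le hN1 (by linarith)
              linarith
      have h5 : (N : ℝ) ^ χ * (2 * (N : ℝ) ^ β) * (N : ℝ) ^ ((κ + δ - (1 - α)) * θ) ≤ 2 * (N : ℝ) ^ (ℓ + δ) := by
        calc (N : ℝ) ^ χ * (2 * (N : ℝ) ^ β) * (N : ℝ) ^ ((κ + δ - (1 - α)) * θ)
            = 2 * (N : ℝ) ^ (χ + β + (κ + δ - (1 - α)) * θ) := by
              rw [Real.rpow_add hN0, Real.rpow_add hN0]; ring
          _ ≤ _ := by
              have : (N : ℝ) ^ (χ + β + (κ + δ - (1 - α)) * θ) ≤ (N : ℝ) ^ (ℓ + δ) :=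
                Real.rpow_le_rpow_of_exponent_le hN1 (by linarith)
              linarith
      calc (N : ℝ) ^ χ * B * ((B / (N : ℝ) ^ α) ^ θ + (N : ℝ) ^ ((κ + δ - (1 - α)) * θ))
          ≤ (N : ℝ) ^ χ * (2 * (N : ℝ) ^ β) * (2 * (N : ℝ) ^ ((β - α) * θ) + (N : ℝ) ^ ((κ + δ - (1 - α)) * θ)) := by
            gcongr
        _ ≤ 6 * (N : ℝ) ^ (ℓ + δ) := by
            rw [mul_add]
            linarith
    have e : (N : ℝ) * (N : ℝ) ^ (ℓ + δ) = E := by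
      calc (N : ℝ) * (N : ℝ) ^ (ℓ + δ) = (N : ℝ) ^ (1 : ℝ) * (N : ℝ) ^ (ℓ + δ) := by rw [Real.rpow_one]
        _ = (N : ℝ) ^ (1 + (ℓ + δ)) := (Real.rpow_add hN0 _ _).symm
        _ = E := by rw [hE]; congr 1; ring
    rw [hπW]
    calc (N : ℝ) * (10976 * ((N : ℝ) ^ χ * B * ((B / (N : ℝ) ^ α) ^ θ + ((N : ℝ) ^ κ * (N : ℝ) ^ δ / (N : ℝ) ^ (1 - α)) ^ θ)))
        ≤ (N : ℝ) * (10976 * (6 * (N : ℝ) ^ (ℓ + δ))) := by gcongr
      _ = 65856 * ((N : ℝ) * (N : ℝ) ^ (ℓ + δ)) := by ring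
      _ = _ := by rw [e]
  have hW0 : 0 ≤ π.W := by rw [hπW]; positivity
  have hZ0 := π.Z_pos
  have hin0 : 0 ≤ (8 * π.R + 57 * π.W + 1) * (π.P * π.M) := by
    rw [← hPM]
    have := π.hR
    positivity
  have hin : (8 * π.R + 57 * π.W + 1) * (π.P * π.M) ≤ 3753801 * E := by
    rw [← hPM]
    have h4 : (N : ℝ) * π.R ≤ E := by rw [hπR]; exact hNE
    have h5 : (N : ℝ) ≤ E := by
      refine le_trans ?_ hNE
      nlinarith
    nlinarith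
  have hbnd : bound π ≤ 4000000000000 * ((N : ℝ) ^ z * (E * Λ)) := by
    have h7 : E ≤ E * Λ := by nlinarith
    have h8 : 162 * ((8 * π.R + 57 * π.W + 1) * (π.P * π.M)) * (1 + Real.log π.B) ^ 2 ≤ 162 * (3753801 * E) * Λ := by
      rw [hπB]
      gcongr
    have h9 : 0 < E * Λ := by positivity
    have h10 : 12 * (π.M ^ 2 * (π.P / π.B)) +
        162 * (8 * π.R + 57 * π.W + 1) * (π.P * π.M) * (1 + Real.log π.B) ^ 2 ≤ 608200000 * (E * Λ) := by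
      calc 12 * (π.M ^ 2 * (π.P / π.B)) +
          162 * (8 * π.R + 57 * π.W + 1) * (π.P * π.M) * (1 + Real.log π.B) ^ 2
          = 12 * (π.M ^ 2 * (π.P / π.B)) +
            162 * ((8 * π.R + 57 * π.W + 1) * (π.P * π.M)) * (1 + Real.log π.B) ^ 2 := by ring
        _ ≤ 12 * (2 * E) + 162 * (3753801 * E) * Λ := by linarith
        _ ≤ _ := by linarith
    unfold bound
    calc π.Z * (12 * (π.M ^ 2 * (π.P / π.B)) +
          162 * (8 * π.R + 57 * π.W + 1) * (π.P * π.M) * (1 + Real.log π.B) ^ 2)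
        ≤ π.Z * (608200000 * (E * Λ)) := mul_le_mul_of_nonneg_left h10 hZ0.le
      _ ≤ (5508 * (N : ℝ) ^ z) * (608200000 * (E * Λ)) := mul_le_mul_of_nonneg_right hZ (by linarith)
      _ ≤ _ := by
          have : 0 ≤ (N : ℝ) ^ z * (E * Λ) := by positivity
          linarith
  have hbnd0 : 0 ≤ bound π := by
    have h7 := π.hR; have h8 := π.P_ge; have h9 := π.M_ge; have h10 := π.hB
    unfold bound
    positivity
  have hmain : (N : ℝ) ^ (2 - 2 * δ) ≤ (64 * 4000000000000 * Λ) * ((N : ℝ) ^ z * E * S) := by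
    calc (N : ℝ) ^ (2 - 2 * δ) = ((N : ℝ) ^ (α - δ) * (N : ℝ) ^ (1 - α)) ^ 2 := by
          rw [← Real.rpow_add hN0, ← Real.rpow_natCast, ← Real.rpow_mul hN0.le]
          congr 1
          push_cast
          ring
      _ ≤ ((Q.card : ℝ) * π.M) ^ 2 := by rw [hπM]; gcongr
      _ ≤ _ := hfin
      _ ≤ 64 * S * (4000000000000 * ((N : ℝ) ^ z * (E * Λ))) := by
          have h7 : (0 : ℝ) ≤ ((Q.biUnion (Cl N b)).card : ℝ) := Nat.cast_nonneg _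
          exact mul_le_mul (by linarith) hbnd hbnd0 (by linarith)
      _ = _ := by ring
  have h5 : (N : ℝ) ^ (2 - 2 * δ) ≤ (N : ℝ) ^ ε * ((N : ℝ) ^ z * E * S) := by
    refine hmain.trans ?_
    have : 0 ≤ (N : ℝ) ^ z * E * S := by positivity
    apply mul_le_mul_of_nonneg_right _ this
    rw [hΛ]
    exact e2
  have hpos : 0 < (N : ℝ) ^ ε * ((N : ℝ) ^ z * E) := by positivity
  refine le_of_mul_le_mul_left ?_ hpos
  calc (N : ℝ) ^ ε * ((N : ℝ) ^ z * E) * (N : ℝ) ^ (1 - ℓ - z - 3 * δ - ε) = (N : ℝ) ^ (2 - 2 * δ) := by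
        rw [hE, ← Real.rpow_add hN0, ← Real.rpow_add hN0, ← Real.rpow_add hN0]
        congr 1
        ring
    _ ≤ (N : ℝ) ^ ε * ((N : ℝ) ^ z * E * S) := h5
    _ = (N : ℝ) ^ ε * ((N : ℝ) ^ z * E) * S := by ring

end Pool.Agent.V7H24.QP
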