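import Pool.Agent.V7H24.QP.Lin

/-!
The number of all the integer solutions of `|k x + F(x) - l y - F(y)| ≤ 2 R`.
-/

set_option autoImplicit false

namespace Pool.Agent.V7H24.QP

open Finset Classical

/-- a set of integers with gaps `≥ s` and of length `≤ L` -/
lemma card_spaced (S : Finset ℤ) (L s : ℝ) (hs : 0 < s) (hL : 0 ≤ L)
    (h : ∀ a ∈ S, ∀ b ∈ S, a < b → s ≤ (b : ℝ) - a ∧ (b : ℝ) - a ≤ L) : (S.card : ℝ) ≤ L / s + 1 := by
  rcases S.eq_empty_or_nonempty with hS | hS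
  · rw [hS]; simp only [card_empty, Nat.cast_zero]; positivity
  obtain ⟨m, hm, hmin⟩ : ∃ m ∈ S, ∀ a ∈ S, m ≤ a := ⟨S.min' hS, S.min'_mem hS, fun a ha => S.min'_le a ha⟩
  have hle : ∀ a ∈ S, ((a : ℝ) - m) ≤ L ∧ 0 ≤ (a : ℝ) - m := by
    intro a ha
    rcases eq_or_lt_of_le (hmin a ha) with h1 | h1
    · rw [← h1]; constructor <;> simp [hL]
    · have := h m hm a ha h1
      exact ⟨this.2, by linarith⟩
  have hcard : S.card ≤ (Icc (0 : ℤ) ⌊L / s⌋).card := by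
    apply card_le_card_of_injOn (fun a : ℤ => ⌊((a : ℝ) - m) / s⌋)
    · intro a ha
      have h1 := hle a ha
      rw [mem_coe, mem_Icc]
      constructor
      · exact Int.floor_nonneg.2 (div_nonneg h1.2 hs.le)
      · exact Int.floor_le_floor (by gcongr; exact h1.1)
    · intro a ha b hb hab
      simp only at hab
      by_contra hne
      have key : ∀ a ∈ S, ∀ b ∈ S, a < b → ⌊((a : ℝ) - m) / s⌋ = ⌊((b : ℝ) - m) / s⌋ → False := by
        intro a ha b hb hlt hab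
        have h1 := (h a ha b hb hlt).1
        have h2 : ((a : ℝ) - m) / s + 1 ≤ ((b : ℝ) - m) / s := by
          rw [div_add_one hs.ne']
          gcongr
          linarith
        have h3 := Int.floor_le_floor h2
        rw [Int.floor_add_one] at h3
        omega
      rcases lt_or_gt_of_ne hne with h1 | h1
      · exact key a ha b hb h1 hab
      · exact key b hb a ha h1 hab.symm
  have h0 : 0 ≤ L / s := by positivity
  have h1 : (0 : ℤ) ≤ ⌊L / s⌋ := Int.floor_nonneg.2 h0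
  rw [Int.card_Icc] at hcard
  have h2 : ((S.card : ℤ)) ≤ ⌊L / s⌋ + 1 := by
    have : ((⌊L / s⌋ + 1 - 0).toNat : ℤ) = ⌊L / s⌋ + 1 := by omega
    rw [← this]
    exact_mod_cast hcard
  have h3 : ((S.card : ℝ)) ≤ ⌊L / s⌋ + 1 := by exact_mod_cast h2
  exact h3.trans (by gcongr; exact Int.floor_le _)

/-- pairs of integers near a line -/
lemma card_pairs (A : Finset (ℤ × ℤ)) (t t' : ℕ) (ht : 1 ≤ t) (W L : ℝ) (hW : 0 ≤ W) (hL : 0 ≤ L)
    (h : ∀ a ∈ A, ∀ b ∈ A, |(t : ℝ) * (a.1 - b.1) - t' * (a.2 - b.2)| ≤ W ∧ |(a.2 : ℝ) - b.2| ≤ L) :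
    (A.card : ℝ) ≤ (W + 1) * (L * ((Nat.gcd t t' : ℝ) / t) + 1) := by
  obtain ⟨Φ, hΦ⟩ : ∃ Φ : ℤ × ℤ → ℤ, Φ = (fun a : ℤ × ℤ => (t : ℤ) * a.1 - t' * a.2) := ⟨_, rfl⟩
  have hg : 0 < Nat.gcd t t' := Nat.gcd_pos_of_pos_left _ ht
  have hg' : (0 : ℝ) < Nat.gcd t t' := by exact_mod_cast hg
  have ht' : (0 : ℝ) < t := by exact_mod_cast ht
  have h1 : ((A.image Φ).card : ℝ) ≤ W + 1 := by
    have := card_spaced (A.image Φ) W 1 one_pos hW (by
      intro a ha b hb hab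
      rw [mem_image] at ha hb
      obtain ⟨a, ha, rfl⟩ := ha
      obtain ⟨b, hb, rfl⟩ := hb
      have h2 := (abs_le.1 (h a ha b hb).1).1
      constructor
      · have : Φ a + 1 ≤ Φ b := hab
        have h3 : ((Φ a : ℝ) + 1) ≤ Φ b := by exact_mod_cast this
        linarith
      · rw [hΦ]
        push_cast
        linarith)
    rwa [div_one] at this
  have h2 : ∀ V ∈ A.image Φ, ((A.filter (fun a => Φ a = V)).card : ℝ) ≤ L * ((Nat.gcd t t' : ℝ) / t) + 1 := by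
    intro V _
    have hinj : (A.filter (fun a => Φ a = V)).card = ((A.filter (fun a => Φ a = V)).image Prod.snd).card := by
      rw [card_image_of_injOn]
      intro a ha b hb hab
      rw [mem_coe, mem_filter] at ha hb
      have e : Φ a = Φ b := ha.2.trans hb.2.symm
      rw [hΦ] at e
      simp only at e
      rw [hab] at e
      have e2 : (t : ℤ) * a.1 = t * b.1 := by linarith
      have e3 : (t : ℤ) ≠ 0 := by omega
      exact Prod.ext (mul_left_cancel₀ e3 e2) hab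
    rw [hinj]
    have := card_spaced ((A.filter (fun a => Φ a = V)).image Prod.snd) L ((t : ℝ) / Nat.gcd t t') (by positivity) hL (by
      intro a ha b hb hab
      rw [mem_image] at ha hb
      obtain ⟨a, ha, rfl⟩ := ha
      obtain ⟨b, hb, rfl⟩ := hb
      rw [mem_filter] at ha hb
      constructor
      · have e : Φ a = Φ b := ha.2.trans hb.2.symm
        rw [hΦ] at e
        simp only at e
        have hdvd : (t : ℤ) ∣ t' * (b.2 - a.2) := ⟨b.1 - a.1, by linarith⟩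
        have hdvd2 : ((t / Nat.gcd t t' : ℕ) : ℤ) ∣ b.2 - a.2 := by
          have hc : Nat.Coprime (t / Nat.gcd t t') (t' / Nat.gcd t t') := Nat.coprime_div_gcd_div_gcd hg
          have e1 : t = Nat.gcd t t' * (t / Nat.gcd t t') := (Nat.mul_div_cancel' (Nat.gcd_dvd_left t t')).symm
          have e2 : t' = Nat.gcd t t' * (t' / Nat.gcd t t') := (Nat.mul_div_cancel' (Nat.gcd_dvd_right t t')).symm
          have h5 : ((Nat.gcd t t' : ℕ) : ℤ) * ((t / Nat.gcd t t' : ℕ) : ℤ) ∣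
              ((Nat.gcd t t' : ℕ) : ℤ) * (((t' / Nat.gcd t t' : ℕ) : ℤ) * (b.2 - a.2)) := by
            rw [← mul_assoc, ← Nat.cast_mul, ← Nat.cast_mul, ← e1, ← e2]
            exact hdvd
          have h6 := (mul_dvd_mul_iff_left (show ((Nat.gcd t t' : ℕ) : ℤ) ≠ 0 by exact_mod_cast hg.ne')).1 h5
          have h7 : IsCoprime ((t / Nat.gcd t t' : ℕ) : ℤ) ((t' / Nat.gcd t t' : ℕ) : ℤ) :=
            Nat.isCoprime_iff_coprime.2 hc
          exact h7.dvd_of_dvd_mul_left h6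
        have h8 := Int.le_of_dvd (by omega) hdvd2
        have h9 : (((t / Nat.gcd t t' : ℕ) : ℤ) : ℝ) ≤ ((b.2 - a.2 : ℤ) : ℝ) := Int.cast_le.2 h8
        rw [Int.cast_natCast, Int.cast_sub, Nat.cast_div (Nat.gcd_dvd_left t t') hg'.ne'] at h9
        exact h9
      · have h3 := (abs_le.1 (h a ha.1 b hb.1).2).1
        linarith)
    refine this.trans (le_of_eq ?_)
    rw [div_div_eq_mul_div]
    ring
  have h3 : A.card = ∑ V ∈ A.image Φ, (A.filter (fun a => Φ a = V)).card := card_eq_sum_card_image Φ A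
  rw [h3]
  push_cast
  have h4 := sum_le_card_nsmul (A.image Φ) (fun V => ((A.filter (fun a => Φ a = V)).card : ℝ)) _ h2
  rw [nsmul_eq_mul] at h4
  refine h4.trans ?_
  apply mul_le_mul_of_nonneg_right h1
  positivity

lemma sum_inv (n : ℕ) : ∑ i ∈ Icc 1 n, (1 : ℝ) / i ≤ 1 + Real.log n := by
  have h := harmonic_le_one_add_log n
  rw [harmonic_eq_sum_Icc] at h
  push_cast at h
  simpa only [one_div] using h

/-- the mean value of the greatest common divisors -/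
lemma sum_gcd (T T' : ℕ) : ∑ t ∈ Icc 1 T, ∑ t' ∈ Icc 1 T', ((Nat.gcd t t' : ℝ) / t) ≤
    T' * (1 + Real.log T) ^ 2 := by
  have h1 : ∀ t ∈ Icc 1 T, ∀ t' ∈ Icc 1 T', ((Nat.gcd t t' : ℝ) / t) ≤
      ∑ w ∈ Icc 1 T ×ˢ Icc 1 T, if (t = w.1 * w.2 ∧ w.1 ∣ t') then (1 : ℝ) / w.2 else 0 := by
    intro t ht t' _
    rw [mem_Icc] at ht
    have hg : 0 < Nat.gcd t t' := Nat.gcd_pos_of_pos_left _ ht.1
    have e1 : t = Nat.gcd t t' * (t / Nat.gcd t t') := (Nat.mul_div_cancel' (Nat.gcd_dvd_left t t')).symm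
    have hq : 0 < t / Nat.gcd t t' := Nat.div_pos (Nat.le_of_dvd ht.1 (Nat.gcd_dvd_left t t')) hg
    have hle := single_le_sum (f := fun w : ℕ × ℕ => if (t = w.1 * w.2 ∧ w.1 ∣ t') then (1 : ℝ) / w.2 else 0)
      (s := Icc 1 T ×ˢ Icc 1 T) (fun w _ => by positivity)
      (a := (Nat.gcd t t', t / Nat.gcd t t')) (by
        rw [mem_product, mem_Icc, mem_Icc]
        exact ⟨⟨hg, (Nat.le_of_dvd ht.1 (Nat.gcd_dvd_left t t')).trans ht.2⟩, hq, (Nat.div_le_self _ _).trans ht.2⟩)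
    refine le_trans ?_ hle
    simp only
    rw [if_pos ⟨e1, Nat.gcd_dvd_right t t'⟩, Nat.cast_div (Nat.gcd_dvd_left t t') (by positivity)]
    rw [one_div_div]
  calc ∑ t ∈ Icc 1 T, ∑ t' ∈ Icc 1 T', ((Nat.gcd t t' : ℝ) / t)
      ≤ ∑ t ∈ Icc 1 T, ∑ t' ∈ Icc 1 T', ∑ w ∈ Icc 1 T ×ˢ Icc 1 T,
        (if (t = w.1 * w.2 ∧ w.1 ∣ t') then (1 : ℝ) / w.2 else 0) :=
        sum_le_sum fun t ht => sum_le_sum fun t' ht' => h1 t ht t' ht'
    _ = ∑ w ∈ Icc 1 T ×ˢ Icc 1 T, ∑ t' ∈ Icc 1 T', ∑ t ∈ Icc 1 T,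
        (if (t = w.1 * w.2 ∧ w.1 ∣ t') then (1 : ℝ) / w.2 else 0) := by
        rw [sum_comm]
        rw [sum_congr rfl (fun t' _ => sum_comm)]
        rw [sum_comm]
    _ ≤ ∑ w ∈ Icc 1 T ×ˢ Icc 1 T, ∑ t' ∈ Icc 1 T', (if w.1 ∣ t' then (1 : ℝ) / w.2 else 0) := by
        refine sum_le_sum fun w _ => sum_le_sum fun t' _ => ?_
        by_cases hd : w.1 ∣ t'
        · rw [if_pos hd]
          have : ∀ t ∈ Icc 1 T, (if (t = w.1 * w.2 ∧ w.1 ∣ t') then (1 : ℝ) / w.2 else 0) =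
              if t = w.1 * w.2 then (1 : ℝ) / w.2 else 0 := by
            intro t _
            simp only [hd, and_true]
          rw [sum_congr rfl this, sum_ite_eq']
          split_ifs
          · exact le_rfl
          · positivity
        · rw [if_neg hd]
          refine le_of_eq (sum_eq_zero fun t _ => ?_)
          rw [if_neg (fun h => hd h.2)]
    _ ≤ ∑ w ∈ Icc 1 T ×ˢ Icc 1 T, (T' : ℝ) * (1 / w.1 * (1 / w.2)) := by
        refine sum_le_sum fun w hw => ?_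
        rw [mem_product, mem_Icc, mem_Icc] at hw
        rw [← sum_filter, sum_const, nsmul_eq_mul]
        have h2 : ((((Icc 1 T').filter (fun t' => w.1 ∣ t')).card : ℕ) : ℝ) ≤ (T' : ℝ) / w.1 := by
          have e : (Icc 1 T').filter (fun t' => w.1 ∣ t') = (Ioc 0 T').filter (fun t' => w.1 ∣ t') := by
            congr 1
          rw [e, Nat.Ioc_filter_dvd_card_eq_div]
          exact Nat.cast_div_le
        calc ((((Icc 1 T').filter (fun t' => w.1 ∣ t')).card : ℕ) : ℝ) * (1 / (w.2 : ℝ))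
            ≤ (T' : ℝ) / w.1 * (1 / (w.2 : ℝ)) := by gcongr
          _ = _ := by ring
    _ = T' * ((∑ i ∈ Icc 1 T, (1 : ℝ) / i) * (∑ i ∈ Icc 1 T, (1 : ℝ) / i)) := by
        rw [← mul_sum, sum_mul_sum, ← sum_product']
    _ ≤ T' * (1 + Real.log T) ^ 2 := by
        have h0 : 0 ≤ ∑ i ∈ Icc 1 T, (1 : ℝ) / i := sum_nonneg fun i _ => by positivity
        have h3 := sum_inv T
        rw [sq]
        gcongr

variable {π : Par}

/-- the indices of the blocks -/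
noncomputable def Bl (π : Par) : Finset ℤ := Icc ⌊π.P / π.B⌋ ⌊2 * π.P / π.B⌋

lemma B_le (π : Par) : π.B ≤ π.P := by
  have h1 := π.hBM; have h2 := π.hMP
  linarith

lemma card_Bl : ((Bl π).card : ℝ) ≤ 3 * (π.P / π.B) := by
  have hB := π.hB
  have hBP := B_le π
  have h1 : 1 ≤ π.P / π.B := by rwa [le_div_iff₀ (by linarith), one_mul]
  have h0 : ⌊π.P / π.B⌋ ≤ ⌊2 * π.P / π.B⌋ + 1 := by
    have : ⌊π.P / π.B⌋ ≤ ⌊2 * π.P / π.B⌋ := by
      apply Int.floor_le_floor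
      rw [mul_div_assoc]
      linarith
    omega
  unfold Bl
  rw [Int.card_Icc]
  have h2 : (((⌊2 * π.P / π.B⌋ + 1 - ⌊π.P / π.B⌋).toNat : ℤ) : ℝ) = ⌊2 * π.P / π.B⌋ + 1 - ⌊π.P / π.B⌋ := by
    rw [Int.toNat_of_nonneg (by omega)]
    push_cast
    ring
  rw [Int.cast_natCast] at h2
  rw [h2]
  have h3 := Int.floor_le (2 * π.P / π.B)
  have h4 := (Int.lt_floor_add_one (π.P / π.B)).le
  have e : 2 * π.P / π.B = 2 * (π.P / π.B) := by ring
  rw [e] at h3 ⊢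
  linarith

lemma blk_mem {x : ℤ} (h1 : π.P ≤ x) (h2 : (x : ℝ) ≤ 2 * π.P) : blk π x ∈ Bl π := by
  have hB := π.hB
  unfold blk Bl
  rw [mem_Icc]
  exact ⟨Int.floor_le_floor (by gcongr), Int.floor_le_floor (by gcongr)⟩

/-- the range of `k` and `l` -/
noncomputable def V (π : Par) : Finset ℤ := Icc 1 ((⌊2 * π.M⌋₊ : ℕ) : ℤ)

lemma mem_V {u : ℤ} (h1 : π.M / 8 ≤ u) (h2 : (u : ℝ) ≤ 2 * π.M) : u ∈ V π := by
  have hM := π.M_ge
  unfold V
  rw [mem_Icc, Int.natCast_floor_eq_floor (by positivity), Int.le_floor]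
  refine ⟨?_, h2⟩
  have : (0 : ℝ) < u := by linarith
  have h3 : 0 < u := by exact_mod_cast this
  omega

lemma card_V : ((V π).card : ℝ) ≤ 2 * π.M := by
  have hM := π.M_ge
  unfold V
  rw [Int.card_Icc]
  have : ((((⌊2 * π.M⌋₊ : ℕ) : ℤ) + 1 - 1).toNat) = ⌊2 * π.M⌋₊ := by omega
  rw [this]
  exact Nat.floor_le (by positivity)

/-- a solution as a quadruple -/
def IsSol (π : Par) (w : ℤ × ℤ × ℤ × ℤ) : Prop := Sol π w.1 w.2.1 w.2.2.1 w.2.2.2

/-- the number of the pieces that meet a window -/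
noncomputable def Par.Z (π : Par) : ℝ := π.Y / π.ρ + 2

lemma Par.Y_pos (π : Par) : 0 < π.Y := by linarith [π.Y_ge, π.hB]

lemma Par.Z_pos (π : Par) : 0 < π.Z := by
  have h1 := π.Y_pos
  have h2 : 0 < π.ρ := by linarith [π.hB, π.hρ]
  unfold Par.Z
  positivity

lemma card_pc (C : Finset ℤ) (h : ∀ a ∈ C, ∀ b ∈ C, (b : ℝ) - a ≤ π.Y / π.ρ + 1) : (C.card : ℝ) ≤ π.Z := by
  have h1 := π.Y_pos
  have h2 : 0 < π.ρ := by linarith [π.hB, π.hρ]
  have := card_spaced C (π.Y / π.ρ + 1) 1 one_pos (by positivity) (by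
    intro a ha b hb hab
    refine ⟨?_, h a ha b hb⟩
    have : a + 1 ≤ b := hab
    have h3 : ((a : ℝ) + 1) ≤ b := by exact_mod_cast this
    linarith)
  unfold Par.Z
  rw [div_one] at this
  linarith

/-- the number of all the solutions -/
theorem card_sol (S : Finset (ℤ × ℤ × ℤ × ℤ)) (hS : ∀ w ∈ S, IsSol π w) :
    (S.card : ℝ) ≤ π.Z * (12 * (π.M ^ 2 * (π.P / π.B)) +
      162 * (8 * π.R + 57 * π.W + 1) * (π.P * π.M) * (1 + Real.log π.B) ^ 2) := by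
  have hM := π.M_ge; have hP := π.P_ge; have hB := π.hB; have hL := π.hL; have hR := π.hR
  have hBM' := π.hBM
  have hZ := π.Z_pos
  have hWW : 0 ≤ π.W := by
    have h2 := π.ω_nonneg π.Y_pos.le
    have h3 : π.B * π.ω π.Y ≤ π.W := π.hW
    have h4 : 0 ≤ π.B * π.ω π.Y := by positivity
    linarith
  obtain ⟨τ, hτ⟩ : ∃ τ : ℤ × ℤ × ℤ × ℤ → ℤ × ℤ × ℤ × ℤ,
    τ = fun w => (w.1, w.2.1, blk π w.2.2.1, pc π w.2.2.2) := ⟨_, rfl⟩
  have hτe : ∀ w w' : ℤ × ℤ × ℤ × ℤ, τ w = τ w' → w.1 = w'.1 ∧ w.2.1 = w'.2.1 ∧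
      blk π w.2.2.1 = blk π w'.2.2.1 ∧ pc π w.2.2.2 = pc π w'.2.2.2 := by
    intro w w' h
    rw [hτ] at h
    simpa only [Prod.mk.injEq] using h
  have hchoice : ∀ z : ℤ × ℤ × ℤ × ℤ, ∃ w₀ : ℤ × ℤ × ℤ × ℤ, z ∈ S.image τ → w₀ ∈ S ∧ τ w₀ = z ∧
      ∀ w ∈ S, τ w = z → w₀.2.2.1 ≤ w.2.2.1 := by
    intro z
    by_cases hz : z ∈ S.image τ
    · have hne : (S.filter (fun w => τ w = z)).Nonempty := by
        rw [mem_image] at hz
        obtain ⟨w, hw, hwz⟩ := hz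
        exact ⟨w, mem_filter.2 ⟨hw, hwz⟩⟩
      obtain ⟨w₀, hw₀, hmin⟩ := exists_min_image (S.filter (fun w => τ w = z)) (fun w => w.2.2.1) hne
      rw [mem_filter] at hw₀
      exact ⟨w₀, fun _ => ⟨hw₀.1, hw₀.2, fun w hw hwz => hmin w (mem_filter.2 ⟨hw, hwz⟩)⟩⟩
    · exact ⟨(0, 0, 0, 0), fun h => absurd h hz⟩
  choose φ hφ using hchoice
  have hφ' : ∀ w ∈ S, φ (τ w) ∈ S ∧ τ (φ (τ w)) = τ w ∧ (φ (τ w)).2.2.1 ≤ w.2.2.1 := by
    intro w hw
    obtain ⟨h1, h2, h3⟩ := hφ (τ w) (mem_image_of_mem τ hw)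
    exact ⟨h1, h2, h3 w hw rfl⟩
  -- the first solution of the block
  have hsol : ∀ w ∈ S, Sol π w.1 w.2.1 (φ (τ w)).2.2.1 (φ (τ w)).2.2.2 ∧
      blk π (φ (τ w)).2.2.1 = blk π w.2.2.1 ∧ pc π (φ (τ w)).2.2.2 = pc π w.2.2.2 := by
    intro w hw
    obtain ⟨h1, h2, -⟩ := hφ' w hw
    have h3 := hS _ h1
    unfold IsSol at h3
    have h4 := hτe _ _ h2
    rw [h4.1, h4.2.1] at h3
    exact ⟨h3, h4.2.2⟩
  obtain ⟨S₁, hS₁⟩ : ∃ S₁, S₁ = S.filter (fun w => ¬ ((φ (τ w)).2.2.1 < w.2.2.1)) := ⟨_, rfl⟩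
  obtain ⟨S₂, hS₂⟩ : ∃ S₂, S₂ = S.filter (fun w => (φ (τ w)).2.2.1 < w.2.2.1) := ⟨_, rfl⟩
  have hsplit : S.card = S₂.card + S₁.card := by
    rw [hS₁, hS₂]
    exact (card_filter_add_card_filter_not (s := S) (fun w => (φ (τ w)).2.2.1 < w.2.2.1)).symm
  -- the first solutions
  have hfirst : (S₁.card : ℝ) ≤ 12 * (π.M ^ 2 * (π.P / π.B)) * π.Z := by
    have h1 : S₁ ⊆ (S.image τ).image φ := by
      intro w hw
      rw [hS₁, mem_filter] at hw
      obtain ⟨hw, hnot⟩ := hw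
      have hw' := hS w hw
      unfold IsSol at hw'
      rw [mem_image]
      refine ⟨τ w, mem_image_of_mem τ hw, ?_⟩
      obtain ⟨h1, h2, h3⟩ := hφ' w hw
      obtain ⟨h4, -, h6⟩ := hsol w hw
      have e1 : (φ (τ w)).2.2.1 = w.2.2.1 := by omega
      rw [e1] at h4
      have e2 := h4.uniq hw' h6
      have h5 := hτe _ _ h2
      exact Prod.ext h5.1 (Prod.ext h5.2.1 (Prod.ext e1 e2.symm))
    have h2 := (card_le_card h1).trans card_image_le
    obtain ⟨ψ, hψ⟩ : ∃ ψ : ℤ × ℤ × ℤ × ℤ → ℤ × ℤ × ℤ, ψ = fun z => (z.1, z.2.1, z.2.2.1) := ⟨_, rfl⟩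
    have h3 : (S.image τ).card = ∑ z ∈ (S.image τ).image ψ, ((S.image τ).filter (fun v => ψ v = z)).card :=
      card_eq_sum_card_image ψ _
    have h4 : ∀ z ∈ (S.image τ).image ψ, ((((S.image τ).filter (fun v => ψ v = z)).card : ℕ) : ℝ) ≤ π.Z := by
      intro z _
      have hinj : ((S.image τ).filter (fun v => ψ v = z)).card =
          (((S.image τ).filter (fun v => ψ v = z)).image (fun v => v.2.2.2)).card := by
        rw [card_image_of_injOn]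
        intro v hv v' hv' heq
        rw [mem_coe, mem_filter] at hv hv'
        have e := hv.2.trans hv'.2.symm
        rw [hψ] at e
        simp only [Prod.mk.injEq] at e
        exact Prod.ext e.1 (Prod.ext e.2.1 (Prod.ext e.2.2 heq))
      rw [hinj]
      apply card_pc
      intro c hc c' hc'
      rw [mem_image] at hc hc'
      obtain ⟨v, hv, rfl⟩ := hc
      obtain ⟨v', hv', rfl⟩ := hc'
      rw [mem_filter, mem_image] at hv hv'
      obtain ⟨⟨w, hw, rfl⟩, hv⟩ := hv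
      obtain ⟨⟨w', hw', rfl⟩, hv'⟩ := hv'
      have e := hv.trans hv'.symm
      rw [hψ, hτ] at e
      simp only [Prod.mk.injEq] at e
      rw [hτ]
      simp only
      apply pc_close
      have s1 := hS w hw
      have s2 := hS w' hw'
      unfold IsSol at s1 s2
      rw [← e.1, ← e.2.1] at s2
      exact s1.ywin s2 e.2.2
    have h5 : (S.image τ).image ψ ⊆ V π ×ˢ V π ×ˢ Bl π := by
      intro z hz
      rw [mem_image] at hz
      obtain ⟨v, hv, rfl⟩ := hz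
      rw [mem_image] at hv
      obtain ⟨w, hw, rfl⟩ := hv
      have hw' := hS w hw
      unfold IsSol at hw'
      rw [hψ, hτ, mem_product, mem_product]
      exact ⟨mem_V hw'.hk hw'.hk2, mem_V hw'.hl hw'.hl2, blk_mem hw'.hx hw'.hx2⟩
    have h6 := sum_le_card_nsmul ((S.image τ).image ψ)
      (fun z => ((((S.image τ).filter (fun v => ψ v = z)).card : ℕ) : ℝ)) π.Z h4
    rw [nsmul_eq_mul] at h6
    have h7 : (S₁.card : ℝ) ≤ ((S.image τ).card : ℝ) := by exact_mod_cast h2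
    rw [h3] at h7
    push_cast at h7
    have h8 := card_le_card h5
    rw [card_product, card_product] at h8
    have h9 : ((((S.image τ).image ψ).card : ℕ) : ℝ) ≤ (V π).card * ((V π).card * (Bl π).card) := by exact_mod_cast h8
    have h10 := card_V (π := π)
    have h11 := card_Bl (π := π)
    calc (S₁.card : ℝ) ≤ ((((S.image τ).image ψ).card : ℕ) : ℝ) * π.Z := h7.trans h6
      _ ≤ ((V π).card * ((V π).card * (Bl π).card)) * π.Z := by gcongr
      _ ≤ ((2 * π.M) * ((2 * π.M) * (3 * (π.P / π.B)))) * π.Z := by gcongr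
      _ = _ := by ring
  -- the other solutions
  obtain ⟨g, hg⟩ : ∃ g : ℤ × ℤ × ℤ × ℤ → ℤ × ℕ × ℕ, g = fun w => (blk π w.2.2.1,
    (w.2.2.1 - (φ (τ w)).2.2.1).toNat, (w.2.2.2 - (φ (τ w)).2.2.2).toNat) := ⟨_, rfl⟩
  have hS₂' : ∀ w ∈ S₂, ∃ t t' : ℕ, 1 ≤ t ∧ 1 ≤ t' ∧ (t : ℝ) ≤ π.B ∧ (t' : ℝ) ≤ 18 * π.B ∧ g w = (blk π w.2.2.1, t, t') ∧
      w.2.2.1 = (φ (τ w)).2.2.1 + t ∧ w.2.2.2 = (φ (τ w)).2.2.2 + t' ∧
      Sol π w.1 w.2.1 (φ (τ w)).2.2.1 (φ (τ w)).2.2.2 ∧ Sol π w.1 w.2.1 w.2.2.1 w.2.2.2 ∧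
      blk π (φ (τ w)).2.2.1 = blk π w.2.2.1 ∧ pc π (φ (τ w)).2.2.2 = pc π w.2.2.2 := by
    intro w hw
    rw [hS₂, mem_filter] at hw
    obtain ⟨hw, hlt⟩ := hw
    have hw' := hS w hw
    unfold IsSol at hw'
    obtain ⟨h4, hb, hp⟩ := hsol w hw
    obtain ⟨d1, d2⟩ := h4.diff hw' hb hp hlt
    have hclose := blk_lt hb
    refine ⟨(w.2.2.1 - (φ (τ w)).2.2.1).toNat, (w.2.2.2 - (φ (τ w)).2.2.2).toNat, by omega, by omega, ?_, ?_, ?_,
      by omega, by omega, h4, hw', hb, hp⟩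
    · have : (((w.2.2.1 - (φ (τ w)).2.2.1).toNat : ℤ) : ℝ) = (w.2.2.1 : ℝ) - (φ (τ w)).2.2.1 := by
        rw [Int.toNat_of_nonneg (by omega)]
        push_cast
        ring
      rw [Int.cast_natCast] at this
      rw [this]
      exact hclose
    · have : (((w.2.2.2 - (φ (τ w)).2.2.2).toNat : ℤ) : ℝ) = (w.2.2.2 : ℝ) - (φ (τ w)).2.2.2 := by
        rw [Int.toNat_of_nonneg (by omega)]
        push_cast
        ring
      rw [Int.cast_natCast] at this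
      rw [this]
      linarith
    · rw [hg]
  obtain ⟨W, hW⟩ : ∃ W : ℝ, W = 8 * π.R + 57 * π.W := ⟨_, rfl⟩
  have hW0 : 0 ≤ W := by rw [hW]; positivity
  have hfib : ∀ z ∈ Bl π ×ˢ Icc 1 ⌊π.B⌋₊ ×ˢ Icc 1 ⌊18 * π.B⌋₊, ((S₂.filter (fun w => g w = z)).card : ℝ) ≤
      π.Z * ((W + 1) * (2 * π.M * ((Nat.gcd z.2.1 z.2.2 : ℝ) / z.2.1) + 1)) := by
    intro z hz
    rw [mem_product, mem_product, mem_Icc, mem_Icc] at hz
    obtain ⟨Fb, hFb⟩ : ∃ Fb, Fb = S₂.filter (fun w => g w = z) := ⟨_, rfl⟩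
    rw [← hFb]
    -- a description of the elements
    have hdesc : ∀ w ∈ Fb, 1 ≤ z.2.1 ∧ (z.2.1 : ℝ) ≤ π.B ∧ z.1 = blk π w.2.2.1 ∧
        w.2.2.1 = (φ (τ w)).2.2.1 + z.2.1 ∧ w.2.2.2 = (φ (τ w)).2.2.2 + z.2.2 ∧
        Sol π w.1 w.2.1 (φ (τ w)).2.2.1 (φ (τ w)).2.2.2 ∧
        Sol π w.1 w.2.1 ((φ (τ w)).2.2.1 + z.2.1) ((φ (τ w)).2.2.2 + z.2.2) ∧
        blk π (φ (τ w)).2.2.1 = blk π w.2.2.1 ∧ pc π (φ (τ w)).2.2.2 = pc π w.2.2.2 := by
      intro w hw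
      rw [hFb, mem_filter] at hw
      obtain ⟨t, t', ht, ht', hB1, hB2, e1, e2, e3, s1, s2, hb, hp⟩ := hS₂' w hw.1
      have e4 := e1.symm.trans hw.2
      rw [← e4]
      refine ⟨ht, hB1, rfl, e2, e3, s1, ?_, hb, hp⟩
      simp only
      rw [← e2, ← e3]
      exact s2
    have hsum : Fb.card = ∑ c ∈ Fb.image (fun w => pc π w.2.2.2), (Fb.filter (fun w => pc π w.2.2.2 = c)).card :=
      card_eq_sum_card_image _ _
    have hpcs : ((Fb.image (fun w => pc π w.2.2.2)).card : ℝ) ≤ π.Z := by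
      apply card_pc
      intro c hc c' hc'
      rw [mem_image] at hc hc'
      obtain ⟨w, hw, rfl⟩ := hc
      obtain ⟨w', hw', rfl⟩ := hc'
      obtain ⟨ht, hB1, e1, e2, e3, s1, s2, hb, hp⟩ := hdesc w hw
      obtain ⟨-, -, f1, f2, f3, s3, s4, hb', hp'⟩ := hdesc w' hw'
      rw [← hp, ← hp']
      apply pc_close
      rw [e2] at hb
      rw [e3] at hp
      rw [f2] at hb'
      rw [f3] at hp'
      refine s1.yclose s2 s3 s4 (by exact_mod_cast ht) hb hb' ?_ hp hp'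
      rw [hb, hb', ← e2, ← f2, ← e1, ← f1]
    have hcell : ∀ c ∈ Fb.image (fun w => pc π w.2.2.2), ((((Fb.filter (fun w => pc π w.2.2.2 = c)).card : ℕ)) : ℝ) ≤
        (W + 1) * (2 * π.M * ((Nat.gcd z.2.1 z.2.2 : ℝ) / z.2.1) + 1) := by
      intro c _
      have hinj : (Fb.filter (fun w => pc π w.2.2.2 = c)).card =
          ((Fb.filter (fun w => pc π w.2.2.2 = c)).image (fun w => (w.1, w.2.1))).card := by
        rw [card_image_of_injOn]
        intro w hw w' hw' heq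
        rw [mem_coe, mem_filter] at hw hw'
        simp only [Prod.mk.injEq] at heq
        obtain ⟨-, -, e1, e2, e3, -, -, -, -⟩ := hdesc w hw.1
        obtain ⟨-, -, f1, f2, f3, -, -, -, -⟩ := hdesc w' hw'.1
        have e5 : τ w = τ w' := by
          rw [hτ]
          simp only [Prod.mk.injEq]
          exact ⟨heq.1, heq.2, e1.symm.trans f1, hw.2.trans hw'.2.symm⟩
        rw [e5] at e2 e3
        exact Prod.ext heq.1 (Prod.ext heq.2 (Prod.ext (e2.trans f2.symm) (e3.trans f3.symm)))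
      rw [hinj]
      apply card_pairs _ _ _ hz.2.1.1 W (2 * π.M) hW0 (by positivity)
      intro a ha b hb
      rw [mem_image] at ha hb
      obtain ⟨w, hw, rfl⟩ := ha
      obtain ⟨w', hw', rfl⟩ := hb
      rw [mem_filter] at hw hw'
      obtain ⟨ht, hB1, e1, e2, e3, s1, s2, hb, hp⟩ := hdesc w hw.1
      obtain ⟨-, -, f1, f2, f3, s3, s4, hb', hp'⟩ := hdesc w' hw'.1
      have hq : pc π (φ (τ w)).2.2.2 = pc π (φ (τ w')).2.2.2 := by
        rw [hp, hp', hw.2, hw'.2]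
      have hq' : blk π (φ (τ w)).2.2.1 = blk π (φ (τ w')).2.2.1 := by
        rw [hb, hb', ← e1, ← f1]
      rw [e2] at hb
      rw [e3] at hp
      rw [f2] at hb'
      rw [f3] at hp'
      have hfin := s1.pair s2 s3 s4 (by exact_mod_cast ht) (by exact_mod_cast hB1) hb hb' hq' hp hp' hq
      rw [hW]
      simp only
      refine ⟨by exact_mod_cast hfin, ?_⟩
      rw [abs_le]
      have g1 := s1.hl; have g2 := s1.hl2; have g3 := s3.hl; have g4 := s3.hl2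
      constructor <;> linarith
    rw [hsum]
    push_cast
    have h4 : ∑ c ∈ Fb.image (fun w => pc π w.2.2.2), ((((Fb.filter (fun w => pc π w.2.2.2 = c)).card : ℕ)) : ℝ) ≤
        ((Fb.image (fun w => pc π w.2.2.2)).card : ℝ) *
        ((W + 1) * (2 * π.M * ((Nat.gcd z.2.1 z.2.2 : ℝ) / z.2.1) + 1)) := by
      refine (sum_le_sum hcell).trans (le_of_eq ?_)
      rw [sum_const, nsmul_eq_mul]
    refine h4.trans ?_
    apply mul_le_mul_of_nonneg_right hpcs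
    positivity
  have hmaps : ∀ w ∈ S₂, g w ∈ Bl π ×ˢ Icc 1 ⌊π.B⌋₊ ×ˢ Icc 1 ⌊18 * π.B⌋₊ := by
    intro w hw
    obtain ⟨t, t', ht, ht', hB1, hB2, e1, -, -, -, s2, -, -⟩ := hS₂' w hw
    rw [e1, mem_product, mem_product, mem_Icc, mem_Icc]
    exact ⟨blk_mem s2.hx s2.hx2, ⟨ht, Nat.le_floor hB1⟩, ht', Nat.le_floor hB2⟩
  have hother : (S₂.card : ℝ) ≤ π.Z * (162 * (W + 1) * (π.P * π.M) * (1 + Real.log π.B) ^ 2) := by
    have h1 := card_eq_sum_card_fiberwise (fun w hw => hmaps w hw)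
    have h2 : (S₂.card : ℝ) ≤ ∑ z ∈ Bl π ×ˢ Icc 1 ⌊π.B⌋₊ ×ˢ Icc 1 ⌊18 * π.B⌋₊,
        π.Z * ((W + 1) * (2 * π.M * ((Nat.gcd z.2.1 z.2.2 : ℝ) / z.2.1) + 1)) := by
      rw [h1]
      push_cast
      exact sum_le_sum hfib
    have hT : ((⌊π.B⌋₊ : ℕ) : ℝ) ≤ π.B := Nat.floor_le (by linarith)
    have hT' : ((⌊18 * π.B⌋₊ : ℕ) : ℝ) ≤ 18 * π.B := Nat.floor_le (by linarith)
    have hlog0 : 0 ≤ Real.log π.B := Real.log_nonneg hB
    have hlog : Real.log ((⌊π.B⌋₊ : ℕ) : ℝ) ≤ Real.log π.B := by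
      apply Real.log_le_log _ hT
      have : 1 ≤ ⌊π.B⌋₊ := Nat.le_floor (by exact_mod_cast hB)
      exact_mod_cast this
    have hlog1 : 0 ≤ Real.log ((⌊π.B⌋₊ : ℕ) : ℝ) := Real.log_natCast_nonneg _
    have h3 := sum_gcd ⌊π.B⌋₊ ⌊18 * π.B⌋₊
    have h4 : ∑ t ∈ Icc 1 ⌊π.B⌋₊, ∑ t' ∈ Icc 1 ⌊18 * π.B⌋₊, ((Nat.gcd t t' : ℝ) / t) ≤
        18 * π.B * (1 + Real.log π.B) ^ 2 := h3.trans (by gcongr)
    have h5 : ∑ z ∈ Bl π ×ˢ Icc 1 ⌊π.B⌋₊ ×ˢ Icc 1 ⌊18 * π.B⌋₊,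
        π.Z * ((W + 1) * (2 * π.M * ((Nat.gcd z.2.1 z.2.2 : ℝ) / z.2.1) + 1)) =
        π.Z * ((Bl π).card * ((W + 1) * (2 * π.M * ∑ t ∈ Icc 1 ⌊π.B⌋₊, ∑ t' ∈ Icc 1 ⌊18 * π.B⌋₊, ((Nat.gcd t t' : ℝ) / t) +
          (⌊π.B⌋₊ : ℝ) * (⌊18 * π.B⌋₊ : ℝ)))) := by
      rw [← mul_sum]
      congr 1
      rw [sum_product]
      simp only
      rw [sum_const, nsmul_eq_mul]
      congr 1
      rw [← mul_sum]
      congr 1
      rw [sum_product]
      simp only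
      simp_rw [sum_add_distrib, ← mul_sum]
      simp only [sum_const, nsmul_eq_mul, Nat.card_Icc, mul_one]
      push_cast
      simp
    rw [h5] at h2
    refine h2.trans ?_
    apply mul_le_mul_of_nonneg_left _ hZ.le
    have h6 := card_Bl (π := π)
    have h7 : (⌊π.B⌋₊ : ℝ) * (⌊18 * π.B⌋₊ : ℝ) ≤ π.B * (18 * π.B) := by gcongr
    have h8 : π.B * (18 * π.B) ≤ 18 * (π.B * π.M) * (1 + Real.log π.B) ^ 2 := by
      have : 1 ≤ (1 + Real.log π.B) ^ 2 := by nlinarith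
      calc π.B * (18 * π.B) = 18 * (π.B * π.B) * 1 := by ring
        _ ≤ 18 * (π.B * π.M) * (1 + Real.log π.B) ^ 2 := by gcongr
    calc ((Bl π).card : ℝ) * ((W + 1) * (2 * π.M * ∑ t ∈ Icc 1 ⌊π.B⌋₊, ∑ t' ∈ Icc 1 ⌊18 * π.B⌋₊,
          ((Nat.gcd t t' : ℝ) / t) + (⌊π.B⌋₊ : ℝ) * (⌊18 * π.B⌋₊ : ℝ)))
        ≤ (3 * (π.P / π.B)) * ((W + 1) * (2 * π.M * (18 * π.B * (1 + Real.log π.B) ^ 2) +
          18 * (π.B * π.M) * (1 + Real.log π.B) ^ 2)) := by
          apply mul_le_mul h6 _ _ (by positivity)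
          · apply mul_le_mul_of_nonneg_left _ (by linarith)
            apply add_le_add _ (h7.trans h8)
            apply mul_le_mul_of_nonneg_left h4 (by linarith)
          · apply mul_nonneg (by linarith)
            apply add_nonneg _ (by positivity)
            apply mul_nonneg (by linarith)
            exact sum_nonneg fun t _ => sum_nonneg fun t' _ => by positivity
      _ = _ := by
          field_simp
          ring
  rw [hsplit]
  push_cast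
  rw [hW] at hother
  rw [mul_add]
  linarith

end Pool.Agent.V7H24.QP
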