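import Pool.Agent.V7H24.QP.Count
import Pool.Agent.V7H18.DC.Bad

/-!
Second moment: choices near a function with piecewise first order expansions.
-/

set_option autoImplicit false

namespace Pool.Agent.V7H24.QP

open Finset Classical

/-- Cauchy's inequality for the number of the covered points -/
lemma cover (Q : Finset ℕ) (C : ℕ → Finset ℕ) (Cov : Finset ℕ) (hC : ∀ p ∈ Q, C p ⊆ Cov) :
    (∑ p ∈ Q, (C p).card) ^ 2 ≤ Cov.card *
      (((Q ×ˢ Q) ×ˢ Cov).filter (fun z => z.2 ∈ C z.1.1 ∧ z.2 ∈ C z.1.2)).card := by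
  have e1 : ∑ p ∈ Q, (C p).card = ∑ n ∈ Cov, (Q.filter (fun p => n ∈ C p)).card := by
    have : ∀ p ∈ Q, (C p).card = ∑ n ∈ Cov, if n ∈ C p then 1 else 0 := by
      intro p hp
      rw [← card_filter]
      congr 1
      ext n
      rw [mem_filter]
      exact ⟨fun h => ⟨hC p hp h, h⟩, fun h => h.2⟩
    rw [sum_congr rfl this, sum_comm]
    exact sum_congr rfl fun n _ => (card_filter _ _).symm
  have e2 : (((Q ×ˢ Q) ×ˢ Cov).filter (fun z => z.2 ∈ C z.1.1 ∧ z.2 ∈ C z.1.2)).card =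
      ∑ n ∈ Cov, (Q.filter (fun p => n ∈ C p)).card ^ 2 := by
    rw [card_filter, sum_product_right]
    refine sum_congr rfl fun n _ => ?_
    rw [← card_filter, sq, ← card_product]
    congr 1
    ext w
    simp only [mem_filter, mem_product]
    tauto
  rw [e2, e1]
  exact sq_sum_le_card_mul_sum_sq

/-- the points of `(N / 2, N]` in the class of `b` modulo `p` -/
noncomputable def Cl (N : ℕ) (b : ℕ → ℤ) (p : ℕ) : Finset ℕ :=
  (Ioc (N / 2) N).filter fun n => (n : ZMod p) = ((b p : ℤ) : ZMod p)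

lemma card_Cl_le (N : ℕ) (b : ℕ → ℤ) (p : ℕ) : (Cl N b p).card ≤ N / p + 1 := by
  refine le_trans (card_le_card ?_) (Pool.Agent.V7H18.DC.card_class_le p N ((b p : ℤ) : ZMod p))
  intro n hn
  rw [Cl, mem_filter, mem_Ioc] at hn
  rw [mem_filter, mem_Icc]
  exact ⟨⟨by omega, hn.1.2⟩, hn.2⟩

lemma le_card_Cl (N : ℕ) (b : ℕ → ℤ) {p : ℕ} (hp : 0 < p) : N / p ≤ (Cl N b p).card + (N / 2 / p + 1) := by
  refine le_trans (Pool.Agent.V7H18.DC.le_card_class p N hp ((b p : ℤ) : ZMod p)) ?_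
  have h1 := Pool.Agent.V7H18.DC.card_class_le p (N / 2) ((b p : ℤ) : ZMod p)
  refine le_trans ?_ (Nat.add_le_add_left h1 _)
  refine le_trans (card_le_card ?_) (card_union_le _ _)
  intro n hn
  rw [mem_filter, mem_Icc] at hn
  rw [mem_union, Cl, mem_filter, mem_filter, mem_Ioc, mem_Icc]
  rcases le_or_gt n (N / 2) with h | h
  · exact Or.inr ⟨⟨hn.1.1, h⟩, hn.2⟩
  · exact Or.inl ⟨⟨h, hn.1.2⟩, hn.2⟩

/-- the quotient -/
def quo (b : ℕ → ℤ) (n p : ℕ) : ℤ := ((n : ℤ) - b p) / p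

lemma quo_spec {N : ℕ} {b : ℕ → ℤ} {n p : ℕ} (h : n ∈ Cl N b p) : quo b n p * p = n - b p := by
  rw [Cl, mem_filter] at h
  have h1 : ((n : ℤ) : ZMod p) = ((b p : ℤ) : ZMod p) := by
    rw [← h.2]; push_cast; rfl
  have h2 : (p : ℤ) ∣ (n : ℤ) - b p := by
    have h3 := ((ZMod.intCast_eq_intCast_iff_dvd_sub _ _ p).1 h1.symm)
    exact h3
  unfold quo
  exact Int.ediv_mul_cancel h2

variable {π : Par} {N : ℕ} {Q : Finset ℕ} {b : ℕ → ℤ}

lemma quo_bounds (hN : (N : ℝ) = π.P * π.M) {n p : ℕ}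
    (hp : π.P ≤ p ∧ (p : ℝ) < 2 * π.P) (hb : |(b p : ℝ) - π.F p| ≤ π.R)
    (h : n ∈ Cl N b p) : π.M / 8 ≤ (quo b n p : ℝ) ∧ (quo b n p : ℝ) ≤ 2 * π.M := by
  have hq := quo_spec h
  have hq' : (quo b n p : ℝ) * p = n - b p := by exact_mod_cast hq
  rw [Cl, mem_filter, mem_Ioc] at h
  have hM := π.M_ge; have hP := π.P_ge; have hMP := π.hMP; have hRM := π.hRM; have hR := π.hR
  have hn1 : (N : ℝ) / 2 ≤ n + 1 / 2 := by
    have h3 : N ≤ 2 * n + 1 := by omega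
    have h4 : (N : ℝ) ≤ 2 * n + 1 := by exact_mod_cast h3
    linarith
  have hn2 : (n : ℝ) ≤ N := by exact_mod_cast h.1.2
  have h1 := abs_le.1 hb
  have hF0 : |π.F p| ≤ π.P * π.M / 8 := by
    refine (π.hF p hp.1 hp.2.le).trans ?_
    have hLM := π.hLM
    have hL := π.hL
    nlinarith
  have hF := abs_le.1 hF0
  rw [← hN] at hF
  have h5 : 128 * π.M ≤ N := by rw [hN]; nlinarith
  have hp0 : 0 < (p : ℝ) := by linarith [hp.1]
  constructor
  · by_contra hcon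
    push Not at hcon
    have h6 : (quo b n p : ℝ) * p < π.M / 8 * (2 * π.P) := by
      calc (quo b n p : ℝ) * p < π.M / 8 * p := by gcongr
        _ ≤ π.M / 8 * (2 * π.P) := by gcongr; exact hp.2.le
    have h7 : π.M / 8 * (2 * π.P) = N / 4 := by rw [hN]; ring
    rw [h7, hq'] at h6
    linarith [h1.1, h1.2, hF.1, hF.2]
  · by_contra hcon
    push Not at hcon
    have h6 : 2 * π.M * π.P < (quo b n p : ℝ) * p := by
      calc 2 * π.M * π.P ≤ 2 * π.M * p := by gcongr; exact hp.1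
        _ < (quo b n p : ℝ) * p := by gcongr
    have h7 : 2 * π.M * π.P = 2 * N := by rw [hN]; ring
    rw [h7, hq'] at h6
    linarith [h1.1, h1.2, hF.1, hF.2]

lemma sol_of (hN : (N : ℝ) = π.P * π.M) {n x y : ℕ}
    (hx : π.P ≤ x ∧ (x : ℝ) < 2 * π.P) (hbx : |(b x : ℝ) - π.F x| ≤ π.R)
    (hy : π.P ≤ y ∧ (y : ℝ) < 2 * π.P) (hby : |(b y : ℝ) - π.F y| ≤ π.R)
    (h : n ∈ Cl N b x) (h' : n ∈ Cl N b y) :
    Sol π (quo b n x) (quo b n y) x y := by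
  have hqx := quo_spec h
  have hqy := quo_spec h'
  have hqx' : (quo b n x : ℝ) * x = n - b x := by exact_mod_cast hqx
  have hqy' : (quo b n y : ℝ) * y = n - b y := by exact_mod_cast hqy
  obtain ⟨hk1, hk2⟩ := quo_bounds hN hx hbx h
  obtain ⟨hl1, hl2⟩ := quo_bounds hN hy hby h'
  have h1 := abs_le.1 hbx
  have h2 := abs_le.1 hby
  refine ⟨hk1, hk2, hl1, hl2, by exact_mod_cast hx.1, by exact_mod_cast hx.2.le, by exact_mod_cast hy.1,
    by exact_mod_cast hy.2.le, ?_⟩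
  push_cast
  rw [abs_le]
  constructor <;> linarith [h1.1, h1.2, h2.1, h2.2]

/-- the bound for the second moment -/
noncomputable def bound (π : Par) : ℝ := π.Z * (12 * (π.M ^ 2 * (π.P / π.B)) +
      162 * (8 * π.R + 57 * π.W + 1) * (π.P * π.M) * (1 + Real.log π.B) ^ 2)

theorem second_moment (hN : (N : ℝ) = π.P * π.M)
    (hQ : ∀ p ∈ Q, π.P ≤ (p : ℝ) ∧ (p : ℝ) < 2 * π.P)
    (hb : ∀ p ∈ Q, |(b p : ℝ) - π.F p| ≤ π.R) (Cov : Finset ℕ) :
    (((((Q ×ˢ Q) ×ˢ Cov).filter (fun z => z.2 ∈ Cl N b z.1.1 ∧ z.2 ∈ Cl N b z.1.2)).card : ℕ) : ℝ) ≤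
      bound π := by
  obtain ⟨T, hT⟩ : ∃ T, T = ((Q ×ˢ Q) ×ˢ Cov).filter (fun z => z.2 ∈ Cl N b z.1.1 ∧ z.2 ∈ Cl N b z.1.2) := ⟨_, rfl⟩
  rw [← hT]
  obtain ⟨f, hf⟩ : ∃ f : (ℕ × ℕ) × ℕ → ℤ × ℤ × ℤ × ℤ, f = fun z =>
    (quo b z.2 z.1.1, quo b z.2 z.1.2, (z.1.1 : ℤ), (z.1.2 : ℤ)) := ⟨_, rfl⟩
  have hcard : T.card = (T.image f).card := by
    rw [card_image_of_injOn]
    intro z hz z' hz' h
    rw [mem_coe, hT, mem_filter, mem_product, mem_product] at hz hz'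
    rw [hf] at h
    simp only [Prod.mk.injEq] at h
    obtain ⟨h1, h2, h3, h4⟩ := h
    have e1 : z.1.1 = z'.1.1 := by exact_mod_cast h3
    have e2 : z.1.2 = z'.1.2 := by exact_mod_cast h4
    have e3 := quo_spec hz.2.2
    have e4 := quo_spec hz'.2.2
    rw [h2, e2] at e3
    have e5 : (z.2 : ℤ) = z'.2 := by linarith
    exact Prod.ext (Prod.ext e1 e2) (by exact_mod_cast e5)
  rw [hcard]
  apply card_sol
  intro w hw
  rw [mem_image] at hw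
  obtain ⟨z, hz, rfl⟩ := hw
  rw [hT, mem_filter, mem_product, mem_product] at hz
  obtain ⟨⟨⟨h1, h2⟩, -⟩, h4, h5⟩ := hz
  rw [hf]
  exact sol_of hN (hQ _ h1) (hb _ h1) (hQ _ h2) (hb _ h2) h4 h5

/-- the finite form of the theorem -/
theorem finite_form (hN : (N : ℝ) = π.P * π.M)
    (hQ : ∀ p ∈ Q, π.P ≤ (p : ℝ) ∧ (p : ℝ) < 2 * π.P)
    (hb : ∀ p ∈ Q, |(b p : ℝ) - π.F p| ≤ π.R) :
    ((Q.card : ℝ) * π.M) ^ 2 ≤ 64 * ((Q.biUnion (Cl N b)).card : ℝ) * bound π := by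
  have hM := π.M_ge; have hP := π.P_ge
  have h1 := cover Q (Cl N b) (Q.biUnion (Cl N b)) (fun p hp => subset_biUnion_of_mem _ hp)
  have h2 := second_moment hN hQ hb (Q.biUnion (Cl N b))
  have hlow : (Q.card : ℝ) * (π.M / 8) ≤ ((∑ p ∈ Q, (Cl N b p).card : ℕ) : ℝ) := by
    push_cast
    rw [← nsmul_eq_mul]
    apply card_nsmul_le_sum
    intro p hp
    have hp' := hQ p hp
    have hp0 : 0 < (p : ℝ) := by linarith [hp'.1]
    have hp1 : 0 < p := by exact_mod_cast hp0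
    have h3 := le_card_Cl N b hp1
    have h4 : ((N / p : ℕ) : ℝ) ≤ (Cl N b p).card + (((N / 2 / p : ℕ) : ℝ) + 1) := by exact_mod_cast h3
    have h5 : (N : ℝ) / p - 1 ≤ ((N / p : ℕ) : ℝ) := by
      have := (Nat.lt_floor_add_one ((N : ℝ) / p))
      rw [Nat.floor_div_eq_div] at this
      linarith
    have h6 : ((N / 2 / p : ℕ) : ℝ) ≤ (N : ℝ) / 2 / p := by
      rw [Nat.div_div_eq_div_mul]
      refine Nat.cast_div_le.trans ?_
      push_cast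
      rw [div_div]
    have h7 : π.M / 2 ≤ (N : ℝ) / p := by
      rw [hN, le_div_iff₀ hp0]
      nlinarith [hp'.2]
    have h8 : (N : ℝ) / 2 / p = (N : ℝ) / p / 2 := by ring
    linarith
  have h3 : (((∑ p ∈ Q, (Cl N b p).card : ℕ) : ℝ)) ^ 2 ≤ ((Q.biUnion (Cl N b)).card : ℝ) *
      (((((Q ×ˢ Q) ×ˢ (Q.biUnion (Cl N b))).filter (fun z =>
        z.2 ∈ Cl N b z.1.1 ∧ z.2 ∈ Cl N b z.1.2)).card : ℕ) : ℝ) := by exact_mod_cast h1
  have h4 : ((Q.card : ℝ) * (π.M / 8)) ^ 2 ≤ ((Q.biUnion (Cl N b)).card : ℝ) * bound π := by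
    calc ((Q.card : ℝ) * (π.M / 8)) ^ 2 ≤ (((∑ p ∈ Q, (Cl N b p).card : ℕ) : ℝ)) ^ 2 := by gcongr
      _ ≤ _ := h3
      _ ≤ _ := by gcongr
  nlinarith

end Pool.Agent.V7H24.QP
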