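import Mathlib

/-!
Integer solutions of `|k x + F(x) - l y - F(y)| ≤ 2 R` for a function `F` which has on each interval
`[j ρ, (j + 1) ρ)` a first order expansion with slopes `G(x)` and modulus of continuity `ω`: two solutions for one pair
`k, l` and two pairs of solutions with the same differences.
-/

set_option autoImplicit false

namespace Pool.Agent.V7H24.QP

/-- the parameters -/
structure Par where
  P : ℝ
  M : ℝ
  R : ℝ
  L : ℝ
  B : ℝ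
  W : ℝ
  ρ : ℝ
  ω : ℝ → ℝ
  F : ℝ → ℝ
  G : ℝ → ℝ
  hR : 1 ≤ R
  hRM : 128 * R ≤ M
  hMP : M ≤ P
  hL : 1 ≤ L
  hLM : 128 * L ≤ M
  hB : 1 ≤ B
  hBM : B ≤ M
  hρ : B ≤ ρ
  hBρ : ∀ x y : ℝ, ⌊x / B⌋ = ⌊y / B⌋ → ⌊x / ρ⌋ = ⌊y / ρ⌋
  hω0 : 0 ≤ ω 0
  hω : ∀ s t : ℝ, 0 ≤ s → s ≤ t → ω s ≤ ω t
  hW : B * ω (18 * B + 784 * (P * L * R / M)) ≤ W
  hF : ∀ x : ℝ, P ≤ x → x ≤ 2 * P → |F x| ≤ L * P
  hLip : ∀ x y : ℝ, P ≤ x → x ≤ 2 * P → P ≤ y → y ≤ 2 * P → ⌊x / ρ⌋ = ⌊y / ρ⌋ → |F x - F y| ≤ L * |x - y|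
  hlin : ∀ x y : ℝ, P ≤ x → x ≤ 2 * P → P ≤ y → y ≤ 2 * P → ⌊x / ρ⌋ = ⌊y / ρ⌋ →
    |F y - F x - (y - x) * G x| ≤ |y - x| * ω |y - x|
  hG : ∀ x y : ℝ, P ≤ x → x ≤ 2 * P → P ≤ y → y ≤ 2 * P → ⌊x / ρ⌋ = ⌊y / ρ⌋ → |G x - G y| ≤ ω |x - y|

variable (π : Par)

/-- the solutions -/
structure Sol (k l x y : ℤ) : Prop where
  hk : π.M / 8 ≤ k
  hk2 : (k : ℝ) ≤ 2 * π.M
  hl : π.M / 8 ≤ l
  hl2 : (l : ℝ) ≤ 2 * π.M
  hx : π.P ≤ x
  hx2 : (x : ℝ) ≤ 2 * π.P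
  hy : π.P ≤ y
  hy2 : (y : ℝ) ≤ 2 * π.P
  h : |((k : ℝ) * x + π.F x) - (l * y + π.F y)| ≤ 2 * π.R

variable {π}

lemma Par.M_ge (π : Par) : 128 ≤ π.M := by have := π.hL; have := π.hLM; linarith

lemma Par.P_ge (π : Par) : 128 ≤ π.P := by have := π.M_ge; have := π.hMP; linarith

lemma Par.ω_nonneg (π : Par) {s : ℝ} (hs : 0 ≤ s) : 0 ≤ π.ω s := π.hω0.trans (π.hω 0 s le_rfl hs)

/-- the index of the block -/
noncomputable def blk (π : Par) (x : ℤ) : ℤ := ⌊(x : ℝ) / π.B⌋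

/-- the index of the piece -/
noncomputable def pc (π : Par) (x : ℤ) : ℤ := ⌊(x : ℝ) / π.ρ⌋

lemma pc_of_blk {x x' : ℤ} (h : blk π x = blk π x') : pc π x = pc π x' := π.hBρ _ _ h

lemma blk_close {x x' : ℤ} (h : blk π x = blk π x') : |(x : ℝ) - x'| ≤ π.B := by
  have hB := π.hB
  have h1 := Int.abs_sub_lt_one_of_floor_eq_floor h
  rw [← sub_div, abs_div, abs_of_pos (show 0 < π.B by linarith), div_lt_one (by linarith)] at h1
  exact h1.le

lemma blk_lt {x x' : ℤ} (h : blk π x = blk π x') : (x' : ℝ) - x ≤ π.B := by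
  have := (abs_le.1 (blk_close h)).1
  linarith

lemma pc_close {y y' : ℤ} {Y : ℝ} (h : |(y : ℝ) - y'| ≤ Y) : (pc π y' : ℝ) - pc π y ≤ Y / π.ρ + 1 := by
  have hρ : 0 < π.ρ := by linarith [π.hB, π.hρ]
  have h1 := Int.floor_le ((y' : ℝ) / π.ρ)
  have h2 := (Int.lt_floor_add_one ((y : ℝ) / π.ρ)).le
  have h3 : (y' : ℝ) / π.ρ ≤ y / π.ρ + Y / π.ρ := by
    rw [← add_div]
    gcongr
    linarith [(abs_le.1 h).1]
  unfold pc
  linarith

/-- the increments of `k x + F(x)` -/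
lemma incr {k : ℤ} (hk : π.M / 8 ≤ k) (hk2 : (k : ℝ) ≤ 2 * π.M) {x x' : ℝ} (hx : π.P ≤ x) (hx' : x' ≤ 2 * π.P)
    (h : x ≤ x') (hpc : ⌊x' / π.ρ⌋ = ⌊x / π.ρ⌋) : 15 * π.M / 128 * (x' - x) ≤ (k : ℝ) * (x' - x) + (π.F x' - π.F x) ∧
      (k : ℝ) * (x' - x) + (π.F x' - π.F x) ≤ 257 * π.M / 128 * (x' - x) := by
  have h1 := abs_le.1 (π.hLip x' x (hx.trans h) hx' hx (h.trans hx') hpc)
  rw [abs_of_nonneg (show 0 ≤ x' - x by linarith)] at h1
  have hLM := π.hLM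
  have h2 : π.L * (x' - x) ≤ π.M / 128 * (x' - x) := by
    apply mul_le_mul_of_nonneg_right _ (by linarith)
    linarith
  have h3 : π.M / 8 * (x' - x) ≤ k * (x' - x) := mul_le_mul_of_nonneg_right hk (by linarith)
  have h4 : (k : ℝ) * (x' - x) ≤ 2 * π.M * (x' - x) := mul_le_mul_of_nonneg_right hk2 (by linarith)
  constructor <;> nlinarith [h1.1, h1.2]

/-- the relation for the differences of two solutions -/
lemma Sol.rel {k l x y x' y' : ℤ} (s : Sol π k l x y) (s' : Sol π k l x' y') :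
    |((k : ℝ) * (x' - x) + (π.F x' - π.F x)) - (l * (y' - y) + (π.F y' - π.F y))| ≤ 4 * π.R := by
  have h1 := abs_le.1 s.h
  have h2 := abs_le.1 s'.h
  rw [abs_le]
  constructor <;> linarith [h1.1, h1.2, h2.1, h2.2]

/-- `y` is determined by `k, l, x` -/
lemma Sol.uniq {k l x y y' : ℤ} (s : Sol π k l x y) (s' : Sol π k l x y') (hpc : pc π y = pc π y') : y' = y := by
  have key : ∀ y y' : ℤ, Sol π k l x y → Sol π k l x y' → pc π y = pc π y' → y < y' → False := by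
    intro y y' s s' hpc hlt
    have h1 := abs_le.1 (s.rel s')
    have hlt' : (1 : ℝ) ≤ (y' : ℝ) - y := by
      have : y + 1 ≤ y' := hlt
      have h2 : ((y : ℝ) + 1) ≤ y' := by exact_mod_cast this
      linarith
    have h2 := (incr s.hl s.hl2 s.hy s'.hy2 (by linarith) hpc.symm).1
    have hR := π.hR; have hRM := π.hRM
    have h3 : 15 * π.M / 128 * 1 ≤ 15 * π.M / 128 * ((y' : ℝ) - y) := by gcongr; linarith
    rw [sub_self, sub_self, mul_zero, zero_add] at h1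
    linarith [h1.1, h1.2]
  rcases lt_trichotomy y y' with h | h | h
  · exact (key y y' s s' hpc h).elim
  · exact h.symm
  · exact (key y' y s' s hpc.symm h).elim

/-- the `y` increase with `x` -/
lemma Sol.diff {k l x y x' y' : ℤ} (s : Sol π k l x y) (s' : Sol π k l x' y') (hb : blk π x = blk π x')
    (hpc : pc π y = pc π y') (h : x < x') :
    y < y' ∧ (y' : ℝ) - y ≤ 18 * (x' - x) := by
  have h1 := abs_le.1 (s.rel s')
  have hlt' : (1 : ℝ) ≤ (x' : ℝ) - x := by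
    have : x + 1 ≤ x' := h
    have h2 : ((x : ℝ) + 1) ≤ x' := by exact_mod_cast this
    linarith
  have h2 := incr s.hk s.hk2 s.hx s'.hx2 (by linarith) (pc_of_blk hb).symm
  have hR := π.hR; have hRM := π.hRM
  have h3 : 15 * π.M / 128 * 1 ≤ 15 * π.M / 128 * ((x' : ℝ) - x) := by gcongr; linarith
  have hlt : y < y' := by
    by_contra hcon
    push Not at hcon
    have hcon' : (y' : ℝ) ≤ y := by exact_mod_cast hcon
    have h4 := (incr s.hl s.hl2 s'.hy s.hy2 hcon' hpc).1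
    have h5 : 0 ≤ 15 * π.M / 128 * ((y : ℝ) - y') := by
      apply mul_nonneg _ (by linarith)
      linarith
    linarith [h1.1, h1.2, h2.1]
  refine ⟨hlt, ?_⟩
  have hlt2 : (y : ℝ) < y' := by exact_mod_cast hlt
  have h4 := (incr s.hl s.hl2 s.hy s'.hy2 hlt2.le hpc.symm).1
  have h5 : 4 * π.R ≤ 4 * π.M / 128 * ((x' : ℝ) - x) := by
    have : 4 * π.R ≤ 4 * π.M / 128 := by linarith
    nlinarith
  have h6 : 15 * π.M / 128 * ((y' : ℝ) - y) ≤ 261 * π.M / 128 * ((x' : ℝ) - x) := by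
    nlinarith [h1.1, h1.2, h2.2]
  have hM : 0 < π.M := by linarith
  have h7 : ((y' : ℝ) - y) * π.M ≤ (261 / 15 * ((x' : ℝ) - x)) * π.M := by linarith
  have h8 := le_of_mul_le_mul_right h7 hM
  linarith

/-- the ratio of `y` and `x` is near the ratio of the differences -/
lemma Sol.ratio {k l x y x' y' : ℤ} (s : Sol π k l x y) (s' : Sol π k l x' y') (hb : blk π x = blk π x')
    (hpc : pc π y = pc π y') (h : x < x') :
    |((x' : ℝ) - x) * y - (y' - y) * x| * π.M ≤ 392 * (π.P * π.L * π.R) * (x' - x) := by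
  obtain ⟨hlt, hle⟩ := s.diff s' hb hpc h
  have h1 := s.rel s'
  have h0 := s.h
  have hx := s.hx; have hx2 := s.hx2; have hy := s.hy; have hy2 := s.hy2
  have hx' : π.P ≤ x' := s'.hx
  have hx'2 := s'.hx2; have hy' := s'.hy; have hy'2 := s'.hy2
  have hl := s.hl
  have hR := π.hR; have hL := π.hL; have hP := π.P_ge; have hM := π.M_ge
  have ht : (1 : ℝ) ≤ (x' : ℝ) - x := by
    have : x + 1 ≤ x' := h
    have h2 : ((x : ℝ) + 1) ≤ x' := by exact_mod_cast this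
    linarith
  have ht' : (0 : ℝ) < (y' : ℝ) - y := by
    have : (y : ℝ) < y' := by exact_mod_cast hlt
    linarith
  have f2 := π.hLip x' x hx' hx'2 hx hx2 (pc_of_blk hb).symm
  have f3 := π.hLip y' y hy' hy'2 hy hy2 hpc.symm
  have f1' : |π.F x - π.F y| ≤ 2 * (π.L * π.P) := by
    have g1 := π.hF x hx hx2
    have g2 := π.hF y hy hy2
    refine (abs_sub _ _).trans ?_
    linarith
  rw [abs_of_nonneg (show 0 ≤ (x' : ℝ) - x by linarith)] at f2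
  rw [abs_of_pos ht'] at f3
  obtain ⟨t, htd⟩ : ∃ t : ℝ, t = x' - x := ⟨_, rfl⟩
  obtain ⟨t', htd'⟩ : ∃ t' : ℝ, t' = y' - y := ⟨_, rfl⟩
  rw [← htd] at ht hle f2 h1 ⊢
  rw [← htd'] at ht' hle f3 h1 ⊢
  obtain ⟨e1, he1⟩ : ∃ e1 : ℝ, e1 = ((k : ℝ) * x + π.F x) - (l * y + π.F y) := ⟨_, rfl⟩
  obtain ⟨e2, he2⟩ : ∃ e2 : ℝ, e2 = ((k : ℝ) * t + (π.F x' - π.F x)) - (l * t' + (π.F y' - π.F y)) := ⟨_, rfl⟩
  rw [← he1] at h0
  rw [← he2] at h1
  have key : (l : ℝ) * (t * y - t' * x) = t * (π.F x - π.F y) - t * e1 - x * (π.F x' - π.F x) +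
      x * (π.F y' - π.F y) + x * e2 := by
    rw [he1, he2]; ring
  have habs : |(l : ℝ) * (t * y - t' * x)| ≤ t * (2 * (π.L * π.P)) + t * (2 * π.R) + 2 * π.P * (π.L * t) +
      2 * π.P * (π.L * t') + 2 * π.P * (4 * π.R) := by
    rw [key]
    have hx0 : (0 : ℝ) ≤ x := by linarith
    have a1 : |t * (π.F x - π.F y)| ≤ t * (2 * (π.L * π.P)) := by
      rw [abs_mul, abs_of_nonneg (show 0 ≤ t by linarith)]
      gcongr
    have a2 : |t * e1| ≤ t * (2 * π.R) := by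
      rw [abs_mul, abs_of_nonneg (show 0 ≤ t by linarith)]
      gcongr
    have a3 : |(x : ℝ) * (π.F x' - π.F x)| ≤ 2 * π.P * (π.L * t) := by
      rw [abs_mul, abs_of_nonneg hx0]
      gcongr
    have a4 : |(x : ℝ) * (π.F y' - π.F y)| ≤ 2 * π.P * (π.L * t') := by
      rw [abs_mul, abs_of_nonneg hx0]
      gcongr
    have a5 : |(x : ℝ) * e2| ≤ 2 * π.P * (4 * π.R) := by
      rw [abs_mul, abs_of_nonneg hx0]
      gcongr
    have b1 := abs_le.1 a1; have b2 := abs_le.1 a2; have b3 := abs_le.1 a3; have b4 := abs_le.1 a4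
    have b5 := abs_le.1 a5
    rw [abs_le]
    constructor <;> linarith [b1.1, b1.2, b2.1, b2.2, b3.1, b3.2, b4.1, b4.2, b5.1, b5.2]
  have hbig : t * (2 * (π.L * π.P)) + t * (2 * π.R) + 2 * π.P * (π.L * t) +
      2 * π.P * (π.L * t') + 2 * π.P * (4 * π.R) ≤ 49 * (π.P * π.L * π.R) * t := by
    obtain ⟨Y, hY⟩ : ∃ Y : ℝ, Y = π.P * π.L * π.R * t := ⟨_, rfl⟩
    have hPK : 0 < π.P * π.L := by positivity
    have c1 : π.P * π.L * t ≤ Y := by
      rw [hY]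
      have : π.P * π.L * t * 1 ≤ π.P * π.L * t * π.R := by gcongr
      linarith
    have c2 : 2 * (t * π.R) ≤ Y := by
      rw [hY]
      have h5 : 2 * 1 ≤ π.P * π.L := by
        apply mul_le_mul (by linarith) hL (by norm_num) (by linarith)
      have : 2 * 1 * (t * π.R) ≤ π.P * π.L * (t * π.R) := by gcongr
      linarith
    have c3 : π.P * π.R ≤ Y := by
      rw [hY]
      have h5 : 1 * 1 ≤ π.L * t := by gcongr
      have : π.P * π.R * (1 * 1) ≤ π.P * π.R * (π.L * t) := by gcongr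
      linarith
    have c4 : π.P * π.L * t' ≤ 18 * Y := by
      have : π.P * π.L * t' ≤ π.P * π.L * (18 * t) := by gcongr
      linarith
    have e3 : 49 * (π.P * π.L * π.R) * t = 49 * Y := by rw [hY]; ring
    rw [e3]
    linarith
  have h8 : π.M / 8 * |t * y - t' * x| ≤ 49 * (π.P * π.L * π.R) * t := by
    refine le_trans ?_ (habs.trans hbig)
    rw [abs_mul]
    apply mul_le_mul_of_nonneg_right _ (abs_nonneg _)
    exact hl.trans (le_abs_self _)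
  linarith

/-- the length of the windows for the `y` -/
noncomputable def Par.Y (π : Par) : ℝ := 18 * π.B + 784 * (π.P * π.L * π.R / π.M)

lemma Par.Y_ge (π : Par) : 18 * π.B ≤ π.Y := by
  have hR := π.hR; have hL := π.hL; have hP := π.P_ge; have hM := π.M_ge
  have : 0 < π.P * π.L * π.R / π.M := by positivity
  unfold Par.Y
  linarith

/-- the `y` of the solutions with `x` in one block -/
lemma Sol.ywin {k l x y x' y' : ℤ} (s : Sol π k l x y) (s' : Sol π k l x' y') (hb : blk π x = blk π x') :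
    |(y : ℝ) - y'| ≤ π.Y := by
  have hR := π.hR; have hL := π.hL; have hP := π.P_ge; have hM := π.M_ge; have hB := π.hB
  have hRM := π.hRM; have hLM := π.hLM
  have h1 := s'.rel s
  have f2 := π.hLip x x' s.hx s.hx2 s'.hx s'.hx2 (pc_of_blk hb)
  have f1 := π.hF y s.hy s.hy2
  have f3 := π.hF y' s'.hy s'.hy2
  have hc := blk_close hb
  have g1 : |(l : ℝ) * (y - y')| ≤ 2 * π.M * π.B + π.L * π.B + 2 * (π.L * π.P) + 4 * π.R := by
    have a1 : |(k : ℝ) * (x - x')| ≤ 2 * π.M * π.B := by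
      have hk0 : (0 : ℝ) ≤ k := by have := s.hk; linarith
      have hk2 := s.hk2
      rw [abs_mul, abs_of_nonneg hk0]
      gcongr
    have a2 : |π.F x - π.F x'| ≤ π.L * π.B := f2.trans (by gcongr)
    have a3 : |π.F y - π.F y'| ≤ 2 * (π.L * π.P) := by
      refine (abs_sub _ _).trans ?_
      linarith
    have b0 := abs_le.1 h1; have b1 := abs_le.1 a1; have b2 := abs_le.1 a2; have b3 := abs_le.1 a3
    rw [abs_le]
    constructor <;> linarith [b0.1, b0.2, b1.1, b1.2, b2.1, b2.2, b3.1, b3.2]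
  have hl := s.hl
  have h8 : π.M / 8 * |(y : ℝ) - y'| ≤ 2 * π.M * π.B + π.L * π.B + 2 * (π.L * π.P) + 4 * π.R := by
    refine le_trans ?_ g1
    rw [abs_mul]
    apply mul_le_mul_of_nonneg_right _ (abs_nonneg _)
    exact hl.trans (le_abs_self _)
  have h9 : |(y : ℝ) - y'| * π.M ≤ π.Y * π.M := by
    have e : π.Y * π.M = 18 * π.B * π.M + 784 * (π.P * π.L * π.R) := by
      unfold Par.Y; field_simp
    rw [e]
    have c1 : π.L * π.B ≤ π.M / 128 * π.B := by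
      have : π.L ≤ π.M / 128 := by linarith
      gcongr
    have c2 : π.L * π.P ≤ π.P * π.L * π.R := by
      have : π.P * π.L * 1 ≤ π.P * π.L * π.R := by gcongr
      linarith
    have c3 : π.R ≤ π.M * π.B := by nlinarith
    have c4 : 32 * π.R ≤ π.M * π.B := by nlinarith
    have c5 : 0 < π.P * π.L * π.R := by positivity
    nlinarith
  exact le_of_mul_le_mul_right h9 (by linarith)

/-- the `y` of the pairs of solutions with the same differences -/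
lemma Sol.yclose {k₁ l₁ x₁ y₁ k₂ l₂ x₂ y₂ t t' : ℤ} (s₁ : Sol π k₁ l₁ x₁ y₁) (s₁' : Sol π k₁ l₁ (x₁ + t) (y₁ + t'))
    (s₂ : Sol π k₂ l₂ x₂ y₂) (s₂' : Sol π k₂ l₂ (x₂ + t) (y₂ + t')) (ht : 1 ≤ t)
    (hb1 : blk π x₁ = blk π (x₁ + t)) (hb2 : blk π x₂ = blk π (x₂ + t)) (hb : blk π x₁ = blk π x₂)
    (hp1 : pc π y₁ = pc π (y₁ + t')) (hp2 : pc π y₂ = pc π (y₂ + t')) : |(y₁ : ℝ) - y₂| ≤ π.Y := by
  have hR := π.hR; have hL := π.hL; have hP := π.P_ge; have hM := π.M_ge; have hB := π.hB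
  have ht1 : (1 : ℝ) ≤ t := by exact_mod_cast ht
  obtain ⟨d1, d1'⟩ := s₁.diff s₁' hb1 hp1 (by omega)
  have r1 := s₁.ratio s₁' hb1 hp1 (by omega)
  have r2 := s₂.ratio s₂' hb2 hp2 (by omega)
  have hx := blk_close hb
  push_cast at r1 r2 d1'
  rw [show (x₁ : ℝ) + t - x₁ = t by ring] at r1 d1'
  rw [show (x₂ : ℝ) + t - x₂ = t by ring] at r2
  rw [show (y₁ : ℝ) + t' - y₁ = t' by ring] at r1 d1'
  rw [show (y₂ : ℝ) + t' - y₂ = t' by ring] at r2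
  have ht'0 : (0 : ℝ) < t' := by
    have : 0 < t' := by omega
    exact_mod_cast this
  have e : (t : ℝ) * (y₁ - y₂) = (t * y₁ - t' * x₁) - (t * y₂ - t' * x₂) + t' * (x₁ - x₂) := by ring
  have h1 : |(t : ℝ) * (y₁ - y₂)| ≤ |(t : ℝ) * y₁ - t' * x₁| + |(t : ℝ) * y₂ - t' * x₂| + t' * π.B := by
    rw [e]
    refine (abs_add_le _ _).trans (add_le_add (abs_sub _ _) ?_)
    rw [abs_mul, abs_of_pos ht'0]
    gcongr
  rw [abs_mul, abs_of_nonneg (show (0 : ℝ) ≤ t by linarith)] at h1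
  have h2 : (t : ℝ) * |(y₁ : ℝ) - y₂| * π.M ≤
      (|(t : ℝ) * y₁ - t' * x₁| + |(t : ℝ) * y₂ - t' * x₂| + t' * π.B) * π.M := by gcongr
  have h3 : (t' : ℝ) * π.B * π.M ≤ (18 * t) * π.B * π.M := by gcongr
  have h4 : (t : ℝ) * (|(y₁ : ℝ) - y₂| * π.M) ≤ t * (18 * π.B * π.M + 784 * (π.P * π.L * π.R)) := by
    nlinarith
  have h5 := le_of_mul_le_mul_left h4 (by linarith)
  have e2 : 18 * π.B * π.M + 784 * (π.P * π.L * π.R) = π.Y * π.M := by
    unfold Par.Y; field_simp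
  rw [e2] at h5
  exact le_of_mul_le_mul_right h5 (by linarith)

/-- two pairs of solutions with the same differences -/
lemma Sol.pair {k₁ l₁ x₁ y₁ k₂ l₂ x₂ y₂ t t' : ℤ} (s₁ : Sol π k₁ l₁ x₁ y₁) (s₁' : Sol π k₁ l₁ (x₁ + t) (y₁ + t'))
    (s₂ : Sol π k₂ l₂ x₂ y₂) (s₂' : Sol π k₂ l₂ (x₂ + t) (y₂ + t')) (ht : 1 ≤ t) (htB : (t : ℝ) ≤ π.B)
    (hb1 : blk π x₁ = blk π (x₁ + t)) (hb2 : blk π x₂ = blk π (x₂ + t)) (hb : blk π x₁ = blk π x₂)
    (hp1 : pc π y₁ = pc π (y₁ + t')) (hp2 : pc π y₂ = pc π (y₂ + t')) (hp : pc π y₁ = pc π y₂) :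
    |(t : ℝ) * (k₁ - k₂) - t' * (l₁ - l₂)| ≤ 8 * π.R + 57 * π.W := by
  have hR := π.hR; have hL := π.hL; have hP := π.P_ge; have hM := π.M_ge; have hB := π.hB
  have ht1 : (1 : ℝ) ≤ t := by exact_mod_cast ht
  have hyy := s₁.yclose s₁' s₂ s₂' ht hb1 hb2 hb hp1 hp2
  have hx := blk_close hb
  obtain ⟨d1, d1'⟩ := s₁.diff s₁' hb1 hp1 (by omega)
  have q1 := s₁.rel s₁'
  have q2 := s₂.rel s₂'
  have g1 := π.hlin x₁ (x₁ + t : ℤ) s₁.hx s₁.hx2 s₁'.hx s₁'.hx2 (pc_of_blk hb1)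
  have g2 := π.hlin x₂ (x₂ + t : ℤ) s₂.hx s₂.hx2 s₂'.hx s₂'.hx2 (pc_of_blk hb2)
  have g3 := π.hlin y₁ (y₁ + t' : ℤ) s₁.hy s₁.hy2 s₁'.hy s₁'.hy2 hp1
  have g4 := π.hlin y₂ (y₂ + t' : ℤ) s₂.hy s₂.hy2 s₂'.hy s₂'.hy2 hp2
  have v1 := π.hG x₁ x₂ s₁.hx s₁.hx2 s₂.hx s₂.hx2 (pc_of_blk hb)
  have v2 := π.hG y₁ y₂ s₁.hy s₁.hy2 s₂.hy s₂.hy2 hp
  push_cast at q1 q2 g1 g2 g3 g4 d1'
  rw [show (x₁ : ℝ) + t - x₁ = t by ring] at q1 g1 d1'
  rw [show (x₂ : ℝ) + t - x₂ = t by ring] at q2 g2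
  rw [show (y₁ : ℝ) + t' - y₁ = t' by ring] at q1 g3 d1'
  rw [show (y₂ : ℝ) + t' - y₂ = t' by ring] at q2 g4
  have ht'0 : (0 : ℝ) < t' := by
    have : 0 < t' := by omega
    exact_mod_cast this
  have ht'B : (t' : ℝ) ≤ 18 * π.B := by linarith
  rw [abs_of_nonneg (show (0 : ℝ) ≤ t by linarith)] at g1 g2
  rw [abs_of_pos ht'0] at g3 g4
  have hBY := π.Y_ge
  have hW : π.B * π.ω π.Y ≤ π.W := π.hW
  have hω0 := π.ω_nonneg (s := π.Y) (by linarith)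
  have hw : (t' : ℝ) * |π.G y₁ - π.G y₂| ≤ 18 * π.W := by
    calc (t' : ℝ) * |π.G y₁ - π.G y₂| ≤ 18 * π.B * π.ω π.Y := by
          gcongr
          exact v2.trans (π.hω _ _ (abs_nonneg _) hyy)
      _ = 18 * (π.B * π.ω π.Y) := by ring
      _ ≤ _ := by gcongr
  have hu : (t : ℝ) * |π.G x₁ - π.G x₂| ≤ π.W := by
    calc (t : ℝ) * |π.G x₁ - π.G x₂| ≤ π.B * π.ω π.Y := by
          gcongr
          exact v1.trans (π.hω _ _ (abs_nonneg _) (by linarith))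
      _ ≤ _ := hW
  have ht2 : (t : ℝ) * π.ω t ≤ π.W := by
    calc (t : ℝ) * π.ω t ≤ π.B * π.ω π.Y := by
          apply mul_le_mul htB (π.hω _ _ (by linarith) (by linarith)) (π.ω_nonneg (by linarith)) (by linarith)
      _ ≤ _ := hW
  have ht2' : (t' : ℝ) * π.ω t' ≤ 18 * π.W := by
    calc (t' : ℝ) * π.ω t' ≤ (18 * π.B) * π.ω π.Y := by
          apply mul_le_mul ht'B (π.hω _ _ (by linarith) (by linarith)) (π.ω_nonneg (by linarith)) (by linarith)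
      _ = 18 * (π.B * π.ω π.Y) := by ring
      _ ≤ _ := by gcongr
  have m1 : |(t : ℝ) * (π.G x₁ - π.G x₂)| ≤ π.W := by
    rw [abs_mul, abs_of_nonneg (show (0 : ℝ) ≤ t by linarith)]; exact hu
  have m2 : |(t' : ℝ) * (π.G y₁ - π.G y₂)| ≤ 18 * π.W := by
    rw [abs_mul, abs_of_pos ht'0]; exact hw
  have n1 := abs_le.1 m1; have n2 := abs_le.1 m2
  have g1' := abs_le.1 g1; have g2' := abs_le.1 g2; have g3' := abs_le.1 g3; have g4' := abs_le.1 g4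
  have q1' := abs_le.1 q1; have q2' := abs_le.1 q2
  rw [abs_le]
  constructor <;> linarith [n1.1, n1.2, n2.1, n2.2, g1'.1, g1'.2, g2'.1, g2'.2, g3'.1, g3'.2, g4'.1, g4'.2,
    q1'.1, q1'.2, q2'.1, q2'.2]

end Pool.Agent.V7H24.QP
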